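import Pool.Agent.N941.NW.Gen

/-!
Chains of diamonds of different sizes.
-/

set_option autoImplicit false

namespace Pool.Agent.N941.NW

open Finset Real
open Pool.Agent.N941.SP
open Pool.Agent.H122R3.SX (Adj walks walks_finite)

/-- a chain of diamonds -/
structure Ch (L : ℕ) (a u : ℕ → ℤ × ℤ) (S : ℕ → ℤ) : Prop where
  un : ∀ i < L, Un (u i)
  nxt : ∀ i < L, a (i + 1) = a i + sc (S i) (u i)
  inj : ∀ i ≤ L, ∀ j ≤ L, a i = a j → i = j
  ver : ∀ i ≤ L, ∀ j < L, S j ≤ |2 * (a i).1 - (2 * (a j).1 + S j * (u j).1)| +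
    |2 * (a i).2 - (2 * (a j).2 + S j * (u j).2)|
  mid : ∀ i < L, ∀ j < L, i ≠ j → S i + S j ≤
    |2 * (a i).1 + S i * (u i).1 - (2 * (a j).1 + S j * (u j).1)| +
    |2 * (a i).2 + S i * (u i).2 - (2 * (a j).2 + S j * (u j).2)|

/-- the walk along a chain -/
def gs (L : ℕ) (a u : ℕ → ℤ × ℤ) (τ : ℕ → ℕ) (d : ℕ → ℕ → ℤ × ℤ) (k : ℕ) : ℤ × ℤ :=
  a (idx τ k) + rot (u (idx τ k)) (bk L d (idx τ k) (k - τ (idx τ k)))

section
variable {L : ℕ} {a u : ℕ → ℤ × ℤ} {S : ℕ → ℤ} {τ : ℕ → ℕ} {d : ℕ → ℕ → ℤ × ℤ}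

theorem gs_tau (hτ : StrictMono τ) (h0 : τ 0 = 0)
    (hf : ∀ i < L, Fl (S i) (τ (i + 1) - τ i) (d i)) {i : ℕ} (hi : i ≤ L) :
    gs L a u τ d (τ i) = a i := by
  have hd : bk L d i 0 = 0 := by
    rcases Nat.lt_or_ge i L with h5 | h5
    · rw [bk_of_lt h5]; exact (hf i h5).blk.zero
    · unfold bk
      rw [if_neg (by omega)]
  unfold gs
  rw [idx_tau hτ h0, Nat.sub_self, hd, rot_zero, add_zero]

theorem gs_mid (hτ : StrictMono τ) (h0 : τ 0 = 0) {i s : ℕ} (hi : i < L)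
    (hs : s < τ (i + 1) - τ i) :
    gs L a u τ d (τ i + s) = a i + rot (u i) (d i s) := by
  have hidx : idx τ (τ i + s) = i := idx_eq hτ h0 (by omega) (by omega)
  unfold gs
  rw [hidx, bk_of_lt hi, Nat.add_sub_cancel_left]

theorem gs_cases (hτ : StrictMono τ) (h0 : τ 0 = 0) {k : ℕ} (hk : k ≤ τ L) :
    (∃ i ≤ L, k = τ i) ∨ (∃ i < L, ∃ s, 0 < s ∧ s < τ (i + 1) - τ i ∧ k = τ i + s) := by
  obtain ⟨h2, h3⟩ := idx_spec hτ h0 k
  obtain ⟨i, hi⟩ : ∃ i, i = idx τ k := ⟨_, rfl⟩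
  have hiL : i ≤ L := by rw [hi]; exact idx_le hτ h0 (lt_of_le_of_lt hk (hτ (Nat.lt_succ_self L)))
  rw [← hi] at h2 h3
  rcases Nat.eq_or_lt_of_le h2 with h4 | h4
  · exact Or.inl ⟨i, hiL, h4.symm⟩
  · right
    have hiL' : i < L := by
      by_contra hc
      have : i = L := by omega
      subst this
      omega
    exact ⟨i, hiL', k - τ i, by omega, by omega, by omega⟩

theorem gs_adj (hc : Ch L a u S) (hτ : StrictMono τ) (h0 : τ 0 = 0)
    (hf : ∀ i < L, Fl (S i) (τ (i + 1) - τ i) (d i)) {k : ℕ} (hk : k < τ L) :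
    Adj (gs L a u τ d k) (gs L a u τ d (k + 1)) := by
  obtain ⟨h2, h3⟩ := idx_spec hτ h0 k
  obtain ⟨i, hi⟩ : ∃ i, i = idx τ k := ⟨_, rfl⟩
  rw [← hi] at h2 h3
  have hiL : i < L := hτ.lt_iff_lt.1 (by omega)
  obtain ⟨s, rfl⟩ : ∃ s, k = τ i + s := ⟨k - τ i, by omega⟩
  rw [gs_mid hτ h0 hiL (by omega)]
  rcases Nat.lt_or_ge (s + 1) (τ (i + 1) - τ i) with h4 | h4
  · rw [add_assoc, gs_mid hτ h0 hiL h4]
    exact adj_rot (hc.un i hiL) _ ((hf i hiL).blk.adj s (by omega))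
  · have e : τ i + s + 1 = τ (i + 1) := by omega
    have e2 : s = τ (i + 1) - τ i - 1 := by omega
    rw [e, gs_tau hτ h0 hf (by omega : i + 1 ≤ L), hc.nxt i hiL, ← rot_top, e2]
    exact adj_rot (hc.un i hiL) _ (hf i hiL).last

theorem gs_inj (hc : Ch L a u S) (hτ : StrictMono τ) (h0 : τ 0 = 0)
    (hf : ∀ i < L, Fl (S i) (τ (i + 1) - τ i) (d i)) {k k' : ℕ} (hk : k ≤ τ L) (hk' : k' ≤ τ L)
    (h : gs L a u τ d k = gs L a u τ d k') : k = k' := by
  have vi : ∀ i ≤ L, ∀ j < L, ∀ s, 0 < s → s < τ (j + 1) - τ j → a i ≠ a j + rot (u j) (d j s) := by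
    intro i hi j hj s hs0 hs hne
    have h1 := mid_norm (hc.un j hj) ((hf j hj).blk.dia s hs0 (by omega))
    have h2 := hc.ver i hi j hj
    rw [hne] at h2
    simp only [Prod.fst_add, Prod.snd_add] at h2
    have e1 : 2 * ((a j).1 + (rot (u j) (d j s)).1) - (2 * (a j).1 + S j * (u j).1) =
      2 * (rot (u j) (d j s)).1 - S j * (u j).1 := by ring
    have e2 : 2 * ((a j).2 + (rot (u j) (d j s)).2) - (2 * (a j).2 + S j * (u j).2) =
      2 * (rot (u j) (d j s)).2 - S j * (u j).2 := by ring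
    rw [e1, e2] at h2
    omega
  rcases gs_cases hτ h0 hk with ⟨i, hi, rfl⟩ | ⟨i, hi, s, hs0, hs, rfl⟩ <;>
    rcases gs_cases hτ h0 hk' with ⟨j, hj, rfl⟩ | ⟨j, hj, t, ht0, ht, rfl⟩
  · rw [gs_tau hτ h0 hf hi, gs_tau hτ h0 hf hj] at h
    rw [hc.inj i hi j hj h]
  · rw [gs_tau hτ h0 hf hi, gs_mid hτ h0 hj ht] at h
    exact absurd h (vi i hi j hj t ht0 ht)
  · rw [gs_tau hτ h0 hf hj, gs_mid hτ h0 hi hs] at h
    exact absurd h.symm (vi j hj i hi s hs0 hs)
  · rw [gs_mid hτ h0 hi hs, gs_mid hτ h0 hj ht] at h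
    by_cases hij : i = j
    · subst hij
      have h2 := rot_inj (hc.un i hi) (add_left_cancel h)
      rw [(hf i hi).blk.inj s (by omega) t (by omega) h2]
    · exfalso
      have h1 := mid_norm (hc.un i hi) ((hf i hi).blk.dia s hs0 (by omega))
      have h2 := mid_norm (hc.un j hj) ((hf j hj).blk.dia t ht0 (by omega))
      have h3 := hc.mid i hi j hj hij
      have g1 := congrArg Prod.fst h
      have g2 := congrArg Prod.snd h
      simp only [Prod.fst_add, Prod.snd_add] at g1 g2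
      have e1 : 2 * (a i).1 + S i * (u i).1 - (2 * (a j).1 + S j * (u j).1) =
          (2 * (rot (u j) (d j t)).1 - S j * (u j).1) -
          (2 * (rot (u i) (d i s)).1 - S i * (u i).1) := by linear_combination 2 * g1
      have e2 : 2 * (a i).2 + S i * (u i).2 - (2 * (a j).2 + S j * (u j).2) =
          (2 * (rot (u j) (d j t)).2 - S j * (u j).2) -
          (2 * (rot (u i) (d i s)).2 - S i * (u i).2) := by linear_combination 2 * g2
      rw [e1, e2] at h3
      have n1 := abs_sub (2 * (rot (u j) (d j t)).1 - S j * (u j).1)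
        (2 * (rot (u i) (d i s)).1 - S i * (u i).1)
      have n2 := abs_sub (2 * (rot (u j) (d j t)).2 - S j * (u j).2)
        (2 * (rot (u i) (d i s)).2 - S i * (u i).2)
      omega

theorem gs_mem (hc : Ch L a u S) (ha0 : a 0 = 0) (hτ : StrictMono τ) (h0 : τ 0 = 0)
    (hf : ∀ i < L, Fl (S i) (τ (i + 1) - τ i) (d i)) {n : ℕ} (hn : n = τ L) :
    (fun k : Fin (n + 1) => gs L a u τ d k) ∈ walks n := by
  refine ⟨?_, ?_, ?_⟩
  · have := gs_tau (a := a) (u := u) hτ h0 hf (Nat.zero_le L)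
    rw [h0, ha0] at this
    simpa using this
  · intro k k' h
    exact Fin.ext (gs_inj hc hτ h0 hf (by omega) (by omega) h)
  · intro k
    exact gs_adj hc hτ h0 hf (by have := k.2; simp only [Fin.val_castSucc]; omega)

end

/-! ### diamond walks as functions -/

/-- diamond walks -/
def DF (Y : ℤ) (N : ℕ) : Set (Fin (N + 1) → ℤ × ℤ) :=
  {f | f ∈ walks N ∧ f (Fin.last N) = (0, Y) ∧ ∀ k, k ≠ 0 → k ≠ Fin.last N → dia Y (f k)}

/-- their number -/
noncomputable def df (Y : ℤ) (N : ℕ) : ℕ := (DF Y N).ncard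

theorem DF_finite (Y : ℤ) (N : ℕ) : (DF Y N).Finite := (walks_finite N).subset fun _ h => h.1

theorem DF.fl {Y : ℤ} (hY : 1 ≤ Y) {N : ℕ} {f : Fin (N + 1) → ℤ × ℤ} (h : f ∈ DF Y N) :
    Fl Y N (ex f) := by
  obtain ⟨hw, hl, hd⟩ := h
  obtain ⟨h0, hadj, hinj⟩ := ex_facts hw
  have hN : 1 ≤ N := by
    by_contra hc
    have : N = 0 := by omega
    subst this
    have h1 : f (Fin.last 0) = 0 := hw.1
    rw [hl] at h1
    have := congrArg Prod.snd h1
    simp only [Prod.snd_zero] at this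
    omega
  refine ⟨hN, ⟨h0, ?_, ?_, ?_⟩, ?_⟩
  · intro s hs s' hs' hss
    exact hinj s (by omega) s' (by omega) hss
  · intro s hs
    exact hadj s (by omega)
  · intro s hs0 hs
    rw [ex_of_lt (by omega : s < N + 1)]
    apply hd
    · intro h
      have := congrArg Fin.val h
      simp only [Fin.val_zero] at this
      omega
    · intro h
      have := congrArg Fin.val h
      simp only [Fin.val_last] at this
      omega
  · have h1 := hadj (N - 1) (by omega)
    rw [show N - 1 + 1 = N by omega] at h1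
    have h2 : ex f N = (0, Y) := by
      rw [ex_of_lt (by omega : N < N + 1)]
      exact hl
    rwa [h2] at h1

theorem DF.ext {Y : ℤ} {N : ℕ} {f g : Fin (N + 1) → ℤ × ℤ} (hf : f ∈ DF Y N) (hg : g ∈ DF Y N)
    (h : ∀ s < N, ex f s = ex g s) : f = g := by
  funext k
  rcases Nat.lt_or_ge (k : ℕ) N with h1 | h1
  · have := h k h1
    rw [ex_of_lt k.2, ex_of_lt k.2] at this
    exact this
  · have : k = Fin.last N := Fin.ext (by simp only [Fin.val_last]; omega)
    rw [this, hf.2.1, hg.2.1]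

/-! ### the detour -/

theorem le_abs_add {A x y : ℤ} (h : A ≤ x + y ∨ A ≤ x - y ∨ A ≤ -x + y ∨ A ≤ -x - y) :
    A ≤ |x| + |y| := by
  rcases abs_cases x with h1 | h1 <;> rcases abs_cases y with h2 | h2 <;> omega

/-- corners -/
def ua (S Z : ℤ) : ℕ → ℤ × ℤ
  | 0 => (0, 0)
  | 1 => (0, S)
  | 2 => (Z, S)
  | 3 => (Z, 2 * S)
  | 4 => (0, 2 * S)
  | _ => (0, 3 * S)

/-- directions -/
def uu : ℕ → ℤ × ℤ
  | 0 => (0, 1)
  | 1 => (1, 0)
  | 2 => (0, 1)
  | 3 => (-1, 0)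
  | _ => (0, 1)

/-- sizes -/
def uS (S Z : ℤ) : ℕ → ℤ
  | 0 => S
  | 1 => Z
  | 2 => S
  | 3 => Z
  | _ => S

theorem detour_ch {S Z : ℤ} (hZ : 1 ≤ Z) (hZS : Z < S) : Ch 5 (ua S Z) uu (uS S Z) := by
  refine ⟨?_, ?_, ?_, ?_, ?_⟩
  · intro i hi
    interval_cases i <;> simp [uu, Un]
  · intro i hi
    interval_cases i <;> simp [ua, uu, uS, sc] <;> ring
  · intro i hi j hj h
    interval_cases i <;> interval_cases j <;> simp only [ua, Prod.mk.injEq] at h <;> omega
  · intro i hi j hj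
    interval_cases i <;> interval_cases j <;> simp only [ua, uu, uS] <;>
      apply le_abs_add <;> omega
  · intro i hi j hj hij
    interval_cases i <;> interval_cases j <;> simp only [ua, uu, uS] <;>
      first
      | exact absurd rfl hij
      | (apply le_abs_add; omega)

theorem in_dia {T r : ℤ} {a u z : ℤ × ℤ}
    (h1 : |2 * (rot u z).1 - r * u.1| + |2 * (rot u z).2 - r * u.2| < r)
    (h2 : |2 * a.1 + r * u.1| + |2 * a.2 + r * u.2 - T| + r ≤ T) : dia T (a + rot u z) := by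
  unfold dia
  simp only [Prod.fst_add, Prod.snd_add]
  have h3 : 2 * |a.1 + (rot u z).1| ≤ |2 * (rot u z).1 - r * u.1| + |2 * a.1 + r * u.1| := by
    have h4 := abs_add_le (2 * (rot u z).1 - r * u.1) (2 * a.1 + r * u.1)
    have e : 2 * (rot u z).1 - r * u.1 + (2 * a.1 + r * u.1) = 2 * (a.1 + (rot u z).1) := by ring
    rw [e, abs_mul, abs_two] at h4
    exact h4
  have h4 : |2 * (a.2 + (rot u z).2) - T| ≤ |2 * (rot u z).2 - r * u.2| +
      |2 * a.2 + r * u.2 - T| := by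
    have h5 := abs_add_le (2 * (rot u z).2 - r * u.2) (2 * a.2 + r * u.2 - T)
    have e : 2 * (rot u z).2 - r * u.2 + (2 * a.2 + r * u.2 - T) =
      2 * (a.2 + (rot u z).2) - T := by ring
    rw [e] at h5
    exact h5
  omega

/-- the detour stays in the large diamond -/
theorem detour_dia {S Z : ℤ} (hZ : 1 ≤ Z) (hZS : Z < S) {i : ℕ} (hi : i < 5) {z : ℤ × ℤ}
    (hz : dia (uS S Z i) z) : dia (3 * S) (ua S Z i + rot (uu i) z) := by
  have hun : Un (uu i) := (detour_ch hZ hZS).un i hi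
  refine in_dia (mid_norm hun hz) ?_
  interval_cases i <;> simp only [ua, uu, uS]
  · rcases abs_cases (2 * (0 : ℤ) + S * 0) with h1 | h1 <;>
      rcases abs_cases (2 * (0 : ℤ) + S * 1 - 3 * S) with h2 | h2 <;> omega
  · rcases abs_cases (2 * (0 : ℤ) + Z * 1) with h1 | h1 <;>
      rcases abs_cases (2 * S + Z * 0 - 3 * S) with h2 | h2 <;> omega
  · rcases abs_cases (2 * Z + S * 0) with h1 | h1 <;>
      rcases abs_cases (2 * S + S * 1 - 3 * S) with h2 | h2 <;> omega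
  · rcases abs_cases (2 * Z + Z * (-1)) with h1 | h1 <;>
      rcases abs_cases (2 * (2 * S) + Z * 0 - 3 * S) with h2 | h2 <;> omega
  · rcases abs_cases (2 * (0 : ℤ) + S * 0) with h1 | h1 <;>
      rcases abs_cases (2 * (2 * S) + S * 1 - 3 * S) with h2 | h2 <;> omega

theorem detour_corner {S Z : ℤ} (hZ : 1 ≤ Z) (hZS : Z < S) {i : ℕ} (hi0 : 0 < i) (hi : i < 5) :
    dia (3 * S) (ua S Z i) := by
  unfold dia
  interval_cases i <;> simp only [ua]
  · rcases abs_cases (2 * S - 3 * S) with h2 | h2 <;> simp <;> omega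
  · rcases abs_cases Z with h1 | h1 <;> rcases abs_cases (2 * S - 3 * S) with h2 | h2 <;> omega
  · rcases abs_cases Z with h1 | h1 <;>
      rcases abs_cases (2 * (2 * S) - 3 * S) with h2 | h2 <;> omega
  · rcases abs_cases (2 * (2 * S) - 3 * S) with h2 | h2 <;> simp <;> omega

/-- lengths -/
def uN (p q : ℕ) : ℕ → ℕ
  | 0 => p
  | 1 => q
  | 2 => p
  | 3 => q
  | _ => p

/-- **The detour**: diamond walks of many lengths. -/
theorem df_detour {S Z : ℤ} (hZ : 1 ≤ Z) (hZS : Z < S) {p q : ℕ} (hp : 1 ≤ p) (hq : 1 ≤ q) :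
    df S p ^ 3 * df Z q ^ 2 ≤ df (3 * S) (3 * p + 2 * q) := by
  classical
  have hS : 1 ≤ S := by omega
  have hc := detour_ch hZ hZS
  have hsize : ∀ i, 1 ≤ uS S Z i := by
    intro i
    unfold uS
    split <;> omega
  obtain ⟨τ, hτ⟩ : ∃ τ : ℕ → ℕ, τ = fun L => ∑ i ∈ range L, uN p q i := ⟨_, rfl⟩
  have hτm : StrictMono τ := by
    apply strictMono_nat_of_lt_succ
    intro i
    rw [hτ]
    show ∑ i ∈ range i, uN p q i < ∑ i ∈ range (i + 1), uN p q i
    rw [sum_range_succ]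
    have : 1 ≤ uN p q i := by
      unfold uN
      split <;> omega
    omega
  have hτ0 : τ 0 = 0 := by rw [hτ]; simp
  have hτd : ∀ i, τ (i + 1) - τ i = uN p q i := by
    intro i
    rw [hτ]
    show ∑ i ∈ range (i + 1), uN p q i - ∑ i ∈ range i, uN p q i = _
    rw [sum_range_succ]
    omega
  have hτ5 : 3 * p + 2 * q = τ 5 := by
    rw [hτ]
    show _ = ∑ i ∈ range 5, uN p q i
    simp only [sum_range_succ, sum_range_zero, uN]
    ring
  obtain ⟨F, hF⟩ : ∃ F : (∀ i : Fin 5, Fin (uN p q i + 1) → ℤ × ℤ) → ℕ → ℕ → ℤ × ℤ,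
      F = fun g i s => if h : i < 5 then ex (g ⟨i, h⟩) s else 0 := ⟨_, rfl⟩
  have hFi : ∀ g (i : Fin 5), F g i = ex (g i) := by
    intro g i
    rw [hF]
    funext s
    simp
  have h1 : df S p ^ 3 * df Z q ^ 2 = (Fintype.piFinset fun i : Fin 5 =>
      (DF_finite (uS S Z i) (uN p q i)).toFinset).card := by
    rw [Fintype.card_piFinset]
    have : ∀ i : Fin 5, (DF_finite (uS S Z i) (uN p q i)).toFinset.card =
        df (uS S Z i) (uN p q i) := fun i => (Set.ncard_eq_toFinset_card _ _).symm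
    rw [prod_congr rfl fun i _ => this i, Fin.prod_univ_five]
    show _ = df S p * df Z q * df S p * df Z q * df S p
    ring
  have hmem : ∀ g ∈ Fintype.piFinset fun i : Fin 5 =>
      (DF_finite (uS S Z i) (uN p q i)).toFinset, ∀ i : Fin 5,
      g i ∈ DF (uS S Z i) (uN p q i) := by
    intro g hg i
    rw [Fintype.mem_piFinset] at hg
    simpa using hg i
  have hfl : ∀ g ∈ Fintype.piFinset fun i : Fin 5 =>
      (DF_finite (uS S Z i) (uN p q i)).toFinset, ∀ i < 5,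
      Fl (uS S Z i) (τ (i + 1) - τ i) (F g i) := by
    intro g hg i hi
    have := DF.fl (hsize i) (hmem g hg ⟨i, hi⟩)
    rw [hτd, hFi g ⟨i, hi⟩]
    exact this
  rw [h1, ← Set.ncard_coe_finset]
  refine Set.ncard_le_ncard_of_injOn
    (fun g (k : Fin (3 * p + 2 * q + 1)) => gs 5 (ua S Z) uu τ (F g) k) ?_ ?_ (DF_finite _ _)
  · intro g hg
    rw [mem_coe] at hg
    have hf := hfl g hg
    refine ⟨gs_mem hc rfl hτm hτ0 hf hτ5, ?_, ?_⟩
    · show gs 5 (ua S Z) uu τ (F g) (Fin.last _ : Fin (3 * p + 2 * q + 1)) = _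
      rw [Fin.val_last, hτ5, gs_tau hτm hτ0 hf le_rfl]
      rfl
    · intro k hk0 hkl
      have hk : (k : ℕ) ≤ τ 5 := by have := k.2; omega
      show dia (3 * S) (gs 5 (ua S Z) uu τ (F g) k)
      rcases gs_cases hτm hτ0 hk with ⟨i, hi, hki⟩ | ⟨i, hi, s, hs0, hs, hki⟩
      · rw [hki, gs_tau hτm hτ0 hf hi]
        apply detour_corner hZ hZS
        · by_contra hc'
          have : i = 0 := by omega
          rw [this, hτ0] at hki
          exact hk0 (Fin.ext hki)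
        · by_contra hc'
          have : i = 5 := by omega
          rw [this, ← hτ5] at hki
          exact hkl (Fin.ext hki)
      · rw [hki, gs_mid hτm hτ0 hi hs]
        exact detour_dia hZ hZS hi ((hf i hi).blk.dia s hs0 (by omega))
  · intro g hg g' hg' h
    rw [mem_coe] at hg hg'
    funext i
    apply DF.ext (hmem g hg i) (hmem g' hg' i)
    intro s hs
    have h2 : τ (i + 1) ≤ τ 5 := hτm.monotone (by omega)
    have h3 := hτd i
    have h4 := hτm (Nat.lt_succ_self (i : ℕ))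
    have h5 := congrFun h ⟨τ i + s, by omega⟩
    simp only at h5
    rw [gs_mid hτm hτ0 i.2 (by omega), gs_mid hτm hτ0 i.2 (by omega), hFi, hFi] at h5
    exact rot_inj (hc.un i i.2) (add_left_cancel h5)

end Pool.Agent.N941.NW
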