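import Pool.Agent.N941.NW.Net

/-!
The number of networks.
-/

set_option autoImplicit false

namespace Pool.Agent.N941.NW

open Finset Real
open Pool.Agent.N941.SP
open Pool.Agent.H122R3.SX (Adj W X pos Saw c walks fs mem_fs ncard_walks walks_finite pos_append
  pos_nil pos_cons st)
open Pool.Agent.TH303.SX2 (Bd)

/-- the networks -/
def nets {A E : Type*} (s t : E → A) (n : E → ℕ) : Set (∀ e, Fin (n e + 1) → ℤ × ℤ) :=
  {ω | (∀ e, ω e ∈ walks (n e)) ∧ ∃ x, Net s t n x ω}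

theorem pi_walks_finite {E : Type*} [Finite E] (n : E → ℕ) :
    {ω : ∀ e, Fin (n e + 1) → ℤ × ℤ | ∀ e, ω e ∈ walks (n e)}.Finite := by
  have := Set.Finite.pi fun e => walks_finite (n e)
  refine this.subset ?_
  intro ω hω
  rw [Set.mem_univ_pi]
  exact hω

theorem nets_finite {A E : Type*} [Finite E] (s t : E → A) (n : E → ℕ) : (nets s t n).Finite :=
  (pi_walks_finite n).subset fun _ hω => hω.1

theorem prod_dm_le {A E : Type*} [Fintype E] {s t : E → A} {l : E → ℕ} (hl : ∀ e, 1 ≤ l e)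
    (hN : (nets s t l).Nonempty) {Y : ℤ} (hY : 1 ≤ Y) {m : ℕ} (hm : 2 ≤ m) :
    ∏ e, dm Y m ^ l e ≤ (nets s t (fun e => m * l e)).ncard := by
  classical
  obtain ⟨ω, hω, x, hx⟩ := hN
  have h1 : ∏ e, dm Y m ^ l e =
      (Fintype.piFinset fun e => Fintype.piFinset fun _ : Fin (l e) => fs (Dm Y) m).card := by
    rw [Fintype.card_piFinset]
    refine prod_congr rfl fun e _ => ?_
    rw [Fintype.card_piFinset, prod_const, card_univ, Fintype.card_fin]
    rfl
  obtain ⟨F, hF⟩ : ∃ F : (∀ e, Fin (l e) → W) → E → ℕ → W,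
      F = fun v e i => if h : i < l e then v e ⟨i, h⟩ else [] := ⟨_, rfl⟩
  have hFi : ∀ v e (i : Fin (l e)), F v e i = v e i := by
    intro v e i
    rw [hF]
    simp
  have hFw : ∀ v ∈ Fintype.piFinset fun e => Fintype.piFinset fun _ : Fin (l e) => fs (Dm Y) m,
      ∀ e, ∀ i < l e, Dm Y (F v e i) ∧ (F v e i).length = m := by
    intro v hv e i hi
    rw [Fintype.mem_piFinset] at hv
    have h2 := hv e
    rw [Fintype.mem_piFinset] at h2
    have h3 := h2 ⟨i, hi⟩
    rw [mem_fs] at h3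
    rw [hFi v e ⟨i, hi⟩]
    exact h3
  rw [h1, ← Set.ncard_coe_finset]
  refine Set.ncard_le_ncard_of_injOn (fun v e => wk Y (l e) m (m * l e) (ex (ω e)) (F v e)) ?_ ?_
    (nets_finite _ _ _)
  · intro v hv
    rw [mem_coe] at hv
    obtain ⟨h2, h3⟩ := net_wk hl hω hx hY hm (hFw v hv)
    exact ⟨h2, _, h3⟩
  · intro v hv v' hv' h
    rw [mem_coe] at hv hv'
    funext e i
    have h2 := wk_inj hY (hl e) (by omega : 1 ≤ m) (by omega : 0 < m)
      (by simp only [Nat.cast_zero]; omega : ((0 : ℕ) : ℤ) < Y) (ex_facts (hω e)).2.1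
      (ex_facts (hω e)).2.2 (hFw v hv e) (hFw v' hv' e) (congrFun h e) i i.2
    rwa [hFi, hFi] at h2

/-! ### straight words -/

theorem pos_replicate (k : ℕ) (i : Fin 2) :
    pos (List.replicate k (0 : Fin 4)) i = if i = 0 then (k : ℤ) else 0 := by
  induction k with
  | zero => simp
  | succ k ih =>
    rw [List.replicate_succ, pos_cons, ih]
    fin_cases i
    · simp [st]; ring
    · simp [st]

theorem dm_straight (m : ℕ) : 1 ≤ dm m m := by
  unfold dm
  rw [Nat.one_le_iff_ne_zero, ← Nat.pos_iff_ne_zero, card_pos]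
  refine ⟨List.replicate m (0 : Fin 4), ?_⟩
  rw [mem_fs]
  have hv : ∀ v : W, v <:+: List.replicate m (0 : Fin 4) → v = List.replicate v.length 0 ∧
      v.length ≤ m := by
    intro v hv
    refine ⟨?_, by simpa using hv.length_le⟩
    rw [List.eq_replicate_iff]
    refine ⟨rfl, fun b hb => ?_⟩
    exact List.eq_of_mem_replicate (hv.subset hb)
  refine ⟨⟨?_, ?_, ?_, ?_⟩, List.length_replicate ..⟩
  · intro v hvm h0
    refine ⟨0, ?_⟩
    rw [(hv v hvm).1, pos_replicate, if_pos rfl]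
    have : v.length ≠ 0 := by
      intro h
      exact h0 (List.length_eq_zero_iff.1 h)
    exact_mod_cast this
  · rw [pos_replicate, if_pos rfl]
  · unfold X
    rw [pos_replicate, if_neg (by decide)]
  · intro v hvm h0 h1
    obtain ⟨h2, h3⟩ := hv v hvm.isInfix
    have h4 : v.length ≠ 0 := by
      intro h
      exact h0 (List.length_eq_zero_iff.1 h)
    have h5 : v.length ≠ m := by
      intro h
      rw [h] at h2
      exact h1 h2
    unfold X
    rw [h2, pos_replicate, pos_replicate, if_neg (by decide), if_pos rfl, abs_zero, mul_zero]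
    rcases abs_cases (2 * (v.length : ℤ) - m) with h6 | h6 <;> omega

/-! ### the lower bound -/

theorem log_mul_sq {m l : ℕ} {a : ℝ} (ha : 1 ≤ a) (hma : log (m : ℝ) ≤ a) (hm : 1 ≤ m)
    (hl : 1 ≤ l) : log ((m * l : ℕ) : ℝ) ^ 2 ≤ 4 * l * a ^ 2 := by
  have hlr : (1 : ℝ) ≤ l := by exact_mod_cast hl
  have hmr : (1 : ℝ) ≤ m := by exact_mod_cast hm
  have hs : √(l : ℝ) ^ 2 = l := Real.sq_sqrt (by linarith)
  have hs1 : 1 ≤ √(l : ℝ) := Real.one_le_sqrt.2 hlr
  have h1 : log (l : ℝ) ≤ 2 * (√(l : ℝ) - 1) := by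
    have h2 := log_le_sub_one_of_pos (x := √(l : ℝ)) (by linarith)
    have h3 : log (l : ℝ) = 2 * log (√(l : ℝ)) := by
      rw [← hs, Real.sqrt_sq (by linarith)]
      rw [log_pow]
      norm_num
    rw [h3]
    linarith
  have h2 : log ((m * l : ℕ) : ℝ) = log m + log l := by
    push_cast
    rw [log_mul (by positivity) (by positivity)]
  have h3 : 0 ≤ log ((m * l : ℕ) : ℝ) := log_natCast_nonneg _
  have h4 : log ((m * l : ℕ) : ℝ) ≤ 2 * √(l : ℝ) * a := by
    rw [h2]
    nlinarith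
  calc log ((m * l : ℕ) : ℝ) ^ 2 ≤ (2 * √(l : ℝ) * a) ^ 2 := pow_le_pow_left₀ h3 h4 2
    _ = 4 * √(l : ℝ) ^ 2 * a ^ 2 := by ring
    _ = _ := by rw [hs]

/-- **Networks**: a constant for all the types. -/
theorem networks : ∃ K : ℝ, 0 ≤ K ∧ ∀ (A E : Type) [Fintype E] (s t : E → A) (l : E → ℕ),
    (∀ e, 1 ≤ l e) → (nets s t l).Nonempty → ∀ m : ℕ, 2 ≤ m →
      exp (-(K * ((∑ e, l e : ℕ) : ℝ) * log m ^ 3)) * ∏ e, (c (m * l e) : ℝ) ≤
        ((nets s t (fun e => m * l e)).ncard : ℝ) := by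
  obtain ⟨μ, K, hB⟩ := Pool.Agent.TH303.SX2.exists_Bd
  obtain ⟨Kb, hKb, hb⟩ := exists_Kb
  have hμ0 : 0 < μ := by linarith [hB.one]
  have hlμ : 0 ≤ log μ := log_nonneg hB.one
  have hK2 := Pool.Agent.TH303.SX2.K2_nonneg hB.Kn
  have hKn := hB.Kn
  obtain ⟨C, hC⟩ : ∃ C, C = 12 * (4 * Pool.Agent.TH303.SX2.K2 K + 2 * K + Kb + 22) +
      45 * (Kb + 6) + 10 * log μ := ⟨_, rfl⟩
  have hC0 : 0 ≤ C := by rw [hC]; positivity
  refine ⟨C + 4 * K + 8 * (416 * log μ + 4 * K * 416 ^ 2), by positivity, ?_⟩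
  intro A E _ s t l hl hN m hm
  obtain ⟨K1, hK1⟩ : ∃ K1, K1 = C + 4 * K + 8 * (416 * log μ + 4 * K * 416 ^ 2) := ⟨_, rfl⟩
  rw [← hK1]
  have hprod : exp (-(K1 * ((∑ e, l e : ℕ) : ℝ) * log m ^ 3)) * ∏ e, (c (m * l e) : ℝ) =
      ∏ e, (exp (-(K1 * (l e : ℝ) * log m ^ 3)) * (c (m * l e) : ℝ)) := by
    rw [prod_mul_distrib, ← exp_sum]
    congr 2
    push_cast
    rw [sum_neg_distrib, mul_sum, sum_mul]
  rw [hprod]
  have hmr : (2 : ℝ) ≤ m := by exact_mod_cast hm
  have hml : ∀ e, 2 ≤ m * l e := by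
    intro e
    have := Nat.mul_le_mul hm (hl e)
    omega
  rcases Nat.lt_or_ge m 416 with h416 | h416
  · -- small m
    have h1 : ∀ e, exp (-(K1 * (l e : ℝ) * log m ^ 3)) * (c (m * l e) : ℝ) ≤ 1 := by
      intro e
      have h2 := hB.up (m * l e) (hml e)
      have hlr : (1 : ℝ) ≤ l e := by exact_mod_cast hl e
      have hm416 : (m : ℝ) ≤ 416 := by exact_mod_cast h416.le
      have h3 : log (m : ℝ) ≤ 416 := by
        have := log_le_sub_one_of_pos (x := (m : ℝ)) (by linarith)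
        linarith
      have h4 := log_mul_sq (by norm_num : (1 : ℝ) ≤ 416) h3 (by omega : 1 ≤ m) (hl e)
      have h5 : (1 : ℝ) / 8 ≤ log (m : ℝ) ^ 3 := by
        have h6 : (1 : ℝ) / 2 ≤ log (m : ℝ) := by
          have h7 : log 2 ≤ log (m : ℝ) := log_le_log (by norm_num) hmr
          have := log_two_gt_d9
          linarith
        calc (1 : ℝ) / 8 = (1 / 2) ^ 3 := by norm_num
          _ ≤ _ := pow_le_pow_left₀ (by norm_num) h6 3
      have h6 : μ ^ (m * l e) = exp ((m * l e : ℕ) * log μ) := by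
        rw [exp_nat_mul, exp_log hμ0]
      have h7 : ((m * l e : ℕ) : ℝ) * log μ ≤ 416 * l e * log μ := by
        push_cast
        gcongr
      calc exp (-(K1 * (l e : ℝ) * log m ^ 3)) * (c (m * l e) : ℝ)
          ≤ exp (-(K1 * (l e : ℝ) * log m ^ 3)) *
            (μ ^ (m * l e) * exp (K * log ((m * l e : ℕ) : ℝ) ^ 2)) := by gcongr
        _ = exp (-(K1 * (l e : ℝ) * log m ^ 3) + ((m * l e : ℕ) * log μ +
            K * log ((m * l e : ℕ) : ℝ) ^ 2)) := by rw [h6, exp_add, exp_add]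
        _ ≤ exp 0 := by
          apply exp_le_exp.2
          have h8 : K * log ((m * l e : ℕ) : ℝ) ^ 2 ≤ K * (4 * l e * 416 ^ 2) := by gcongr
          have h9 : (416 * log μ + 4 * K * 416 ^ 2) * (l e : ℝ) ≤
              K1 * (l e : ℝ) * log m ^ 3 := by
            have h10 : 8 * (416 * log μ + 4 * K * 416 ^ 2) ≤ K1 := by
              rw [hK1]
              nlinarith
            have h11 : 0 ≤ K1 := le_trans (by positivity) h10
            calc (416 * log μ + 4 * K * 416 ^ 2) * (l e : ℝ)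
                = 8 * (416 * log μ + 4 * K * 416 ^ 2) * (l e : ℝ) * (1 / 8) := by ring
              _ ≤ K1 * (l e : ℝ) * log m ^ 3 := by gcongr
          nlinarith
        _ = 1 := exp_zero
    have h2 : ∏ e, (exp (-(K1 * (l e : ℝ) * log m ^ 3)) * (c (m * l e) : ℝ)) ≤ 1 :=
      prod_le_one (fun e _ => by positivity) fun e _ => h1 e
    refine h2.trans ?_
    have h3 := prod_dm_le hl hN (by omega : (1 : ℤ) ≤ m) hm
    have h4 : 1 ≤ ∏ e, dm m m ^ l e := by
      apply Nat.one_le_iff_ne_zero.2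
      apply prod_ne_zero_iff.2
      intro e _
      have := dm_straight m
      exact pow_ne_zero _ (by omega)
    exact_mod_cast h4.trans h3
  · obtain ⟨Y, hY, hdmY⟩ := diam hB hKb hb h416
    rw [← hC] at hdmY
    have h3 := prod_dm_le hl hN hY hm
    have h3' : ∏ e, (dm Y m : ℝ) ^ l e ≤ ((nets s t (fun e => m * l e)).ncard : ℝ) := by
      exact_mod_cast h3
    refine le_trans ?_ h3'
    refine prod_le_prod (fun e _ => by positivity) fun e _ => ?_
    have hm416 : (416 : ℝ) ≤ m := by exact_mod_cast h416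
    have hl1 : 1 ≤ log (m : ℝ) := by
      rw [← log_exp 1]
      apply log_le_log (exp_pos _)
      have := exp_one_lt_d9
      linarith
    have h4 := log_mul_sq hl1 le_rfl (by omega : 1 ≤ m) (hl e)
    have h5 := hB.up (m * l e) (hml e)
    have hlr : (1 : ℝ) ≤ l e := by exact_mod_cast hl e
    have h6 : log (m : ℝ) ^ 2 ≤ log m ^ 3 := pow_le_pow_right₀ hl1 (by norm_num)
    calc exp (-(K1 * (l e : ℝ) * log m ^ 3)) * (c (m * l e) : ℝ)
        ≤ exp (-(K1 * (l e : ℝ) * log m ^ 3)) *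
          (μ ^ (m * l e) * exp (K * log ((m * l e : ℕ) : ℝ) ^ 2)) := by gcongr
      _ = μ ^ (m * l e) * exp (-(K1 * (l e : ℝ) * log m ^ 3) +
          K * log ((m * l e : ℕ) : ℝ) ^ 2) := by rw [exp_add]; ring
      _ ≤ μ ^ (m * l e) * exp (-(C * l e * log m ^ 3)) := by
        gcongr
        have h8 : K * log ((m * l e : ℕ) : ℝ) ^ 2 ≤ K * (4 * l e * log m ^ 3) := by
          refine mul_le_mul_of_nonneg_left (h4.trans ?_) hKn
          gcongr
        have h9 : (C + 4 * K) * (l e : ℝ) * log m ^ 3 ≤ K1 * (l e : ℝ) * log m ^ 3 := by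
          have h10 : C + 4 * K ≤ K1 := by
            rw [hK1]
            nlinarith
          gcongr
        nlinarith
      _ = (μ ^ m * exp (-(C * log m ^ 3))) ^ l e := by
        rw [mul_pow, ← pow_mul, ← exp_nat_mul]
        congr 2
        ring
      _ ≤ (dm Y m : ℝ) ^ l e := by gcongr

end Pool.Agent.N941.NW
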