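import Pool.Agent.N941.NW.Gen

/-!
Walks which follow a lattice path enlarged by a factor.
-/

set_option autoImplicit false

namespace Pool.Agent.N941.NW

open Finset Real
open Pool.Agent.N941.SP
open Pool.Agent.H122R3.SX (Adj walks)

/-- the walk `ω` follows the path `P` enlarged by `Y`, with time change `σ` and error `b` -/
structure Fo {l n : ℕ} (Y b : ℤ) (P : Fin (l + 1) → ℤ × ℤ) (ω : Fin (n + 1) → ℤ × ℤ)
    (σ : Fin (n + 1) → Fin (l + 1)) : Prop where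
  mono : Monotone σ
  step : ∀ k k' : Fin (n + 1), (k' : ℕ) ≤ k + 1 → (σ k' : ℕ) ≤ σ k + 1
  zero : σ 0 = 0
  near : ∀ k, |(ω k).1 - Y * (P (σ k)).1| + |(ω k).2 - Y * (P (σ k)).2| ≤ b

theorem Fo.comp {l m n : ℕ} {T Y : ℤ} (hT : 0 ≤ T) {P : Fin (l + 1) → ℤ × ℤ}
    {Q : Fin (m + 1) → ℤ × ℤ} {ω : Fin (n + 1) → ℤ × ℤ} {σ : Fin (m + 1) → Fin (l + 1)}
    {ρ : Fin (n + 1) → Fin (m + 1)} (h1 : Fo Y Y P Q σ) (h2 : Fo T T Q ω ρ) :
    Fo (T * Y) (T + T * Y) P ω (σ ∘ ρ) := by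
  refine ⟨h1.mono.comp h2.mono, fun k k' hk => h1.step _ _ (h2.step k k' hk), ?_, ?_⟩
  · show σ (ρ 0) = 0
    rw [h2.zero, h1.zero]
  · intro k
    have a1 := h2.near k
    have a2 := h1.near (ρ k)
    have a3 : T * (|(Q (ρ k)).1 - Y * (P (σ (ρ k))).1| + |(Q (ρ k)).2 - Y * (P (σ (ρ k))).2|) ≤
        T * Y := mul_le_mul_of_nonneg_left a2 hT
    have b1 := abs_add_le ((ω k).1 - T * (Q (ρ k)).1) (T * ((Q (ρ k)).1 - Y * (P (σ (ρ k))).1))
    have b2 := abs_add_le ((ω k).2 - T * (Q (ρ k)).2) (T * ((Q (ρ k)).2 - Y * (P (σ (ρ k))).2))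
    rw [abs_mul, abs_of_nonneg hT] at b1 b2
    have e1 : (ω k).1 - T * (Q (ρ k)).1 + T * ((Q (ρ k)).1 - Y * (P (σ (ρ k))).1) =
      (ω k).1 - T * Y * (P (σ (ρ k))).1 := by ring
    have e2 : (ω k).2 - T * (Q (ρ k)).2 + T * ((Q (ρ k)).2 - Y * (P (σ (ρ k))).2) =
      (ω k).2 - T * Y * (P (σ (ρ k))).2 := by ring
    rw [e1] at b1
    rw [e2] at b2
    rw [mul_add] at a3
    show |(ω k).1 - T * Y * (P (σ (ρ k))).1| + |(ω k).2 - T * Y * (P (σ (ρ k))).2| ≤ _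
    linarith

theorem idx_mono {τ : ℕ → ℕ} (hτ : StrictMono τ) (h0 : τ 0 = 0) : Monotone (idx τ) := by
  intro k k' hk
  have h1 := (idx_spec hτ h0 k).1
  have h2 := (idx_spec hτ h0 k').2
  have h3 : idx τ k < idx τ k' + 1 := hτ.lt_iff_lt.1 (by omega)
  omega

theorem idx_step {τ : ℕ → ℕ} (hτ : StrictMono τ) (h0 : τ 0 = 0) {k k' : ℕ} (hk : k' ≤ k + 1) :
    idx τ k' ≤ idx τ k + 1 := by
  have h1 := (idx_spec hτ h0 k').1
  have h2 := (idx_spec hτ h0 k).2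
  have h4 : τ (idx τ k + 1) < τ (idx τ k + 1 + 1) := hτ (Nat.lt_succ_self (idx τ k + 1))
  have h3 : idx τ k' < idx τ k + 1 + 1 := hτ.lt_iff_lt.1 (by omega)
  omega

/-- the substituted walk follows the path -/
theorem sw_fo {Y : ℤ} (hY : 1 ≤ Y) {L : ℕ} {P : Fin (L + 1) → ℤ × ℤ} (hP : P ∈ walks L)
    {τ : ℕ → ℕ} (hτ : StrictMono τ) (h0 : τ 0 = 0) {d : ℕ → ℕ → ℤ × ℤ}
    (hf : ∀ i < L, Fl Y (τ (i + 1) - τ i) (d i)) {n : ℕ} (hn : n = τ L) :
    ∃ σ : Fin (n + 1) → Fin (L + 1), σ (Fin.last n) = Fin.last L ∧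
      Fo Y Y P (fun k : Fin (n + 1) => sw Y L (ex P) τ d k) σ := by
  have hle : ∀ k : Fin (n + 1), idx τ k < L + 1 := by
    intro k
    have := idx_le hτ h0 (k := k) (L := L) (lt_of_le_of_lt (by omega : (k : ℕ) ≤ τ L)
      (hτ (Nat.lt_succ_self L)))
    omega
  refine ⟨fun k => ⟨idx τ k, hle k⟩, ?_, ?_, fun k k' hk => idx_step hτ h0 hk, ?_, ?_⟩
  · apply Fin.ext
    show idx τ ((Fin.last n : Fin (n + 1)) : ℕ) = L
    rw [Fin.val_last, hn, idx_tau hτ h0]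
  · intro k k' hk
    exact idx_mono hτ h0 hk
  · apply Fin.ext
    show idx τ ((0 : Fin (n + 1)) : ℕ) = 0
    rw [Fin.val_zero]
    have := idx_tau hτ h0 0
    rwa [h0] at this
  · intro k
    obtain ⟨h2, h3⟩ := idx_spec hτ h0 (k : ℕ)
    obtain ⟨i, hi⟩ : ∃ i, i = idx τ (k : ℕ) := ⟨_, rfl⟩
    have hiL : i < L + 1 := by rw [hi]; exact hle k
    have ePi : P ⟨idx τ (k : ℕ), hle k⟩ = ex P i := by
      rw [ex_of_lt hiL]
      congr 1
      exact Fin.ext hi.symm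
    show |(sw Y L (ex P) τ d k).1 - Y * (P ⟨idx τ (k : ℕ), hle k⟩).1| +
      |(sw Y L (ex P) τ d k).2 - Y * (P ⟨idx τ (k : ℕ), hle k⟩).2| ≤ Y
    rw [ePi]
    rw [← hi] at h2 h3
    rcases Nat.eq_or_lt_of_le h2 with h4 | h4
    · rw [← h4, sw_tau hτ h0 hf (by omega)]
      simp only [sc, sub_self, abs_zero, add_zero]
      omega
    · have hiL' : i < L := by
        by_contra hc
        have : i = L := by omega
        subst this
        have := k.2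
        omega
      have hk : (k : ℕ) = τ i + (k - τ i) := by omega
      rw [hk, sw_mid hτ h0 hiL' (by omega)]
      have h5 := (hf i hiL').blk.dia (k - τ i) (by omega) (by omega)
      have h6 : |(d i (k - τ i)).1| + |(d i (k - τ i)).2| ≤ Y := by
        unfold dia at h5
        rcases abs_cases (d i (k - τ i)).1 with g1 | g1 <;>
          rcases abs_cases (d i (k - τ i)).2 with g2 | g2 <;>
          rcases abs_cases (2 * (d i (k - τ i)).2 - Y) with g3 | g3 <;> omega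
      have h7 := rot_norm (un_of_adj hP hiL') (d i (k - τ i))
      have e1 : (sc Y (ex P i) + rot (ex P (i + 1) - ex P i) (d i (k - τ i))).1 -
          Y * (ex P i).1 = (rot (ex P (i + 1) - ex P i) (d i (k - τ i))).1 := by
        simp only [sc, Prod.fst_add]; ring
      have e2 : (sc Y (ex P i) + rot (ex P (i + 1) - ex P i) (d i (k - τ i))).2 -
          Y * (ex P i).2 = (rot (ex P (i + 1) - ex P i) (d i (k - τ i))).2 := by
        simp only [sc, Prod.snd_add]; ring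
      rw [e1, e2, h7]
      exact h6

end Pool.Agent.N941.NW
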