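import Pool.Agent.N941.NW.Net

/-!
Networks: substitution of paths of variable lengths.
-/

set_option autoImplicit false

namespace Pool.Agent.N941.NW

open Finset Real
open Pool.Agent.N941.SP
open Pool.Agent.H122R3.SX (Adj walks)

/-- blocks, followed by the zero block -/
def bk (L : ℕ) (d : ℕ → ℕ → ℤ × ℤ) (i s : ℕ) : ℤ × ℤ := if i < L then d i s else 0

theorem bk_of_lt {L : ℕ} {d : ℕ → ℕ → ℤ × ℤ} {i : ℕ} (h : i < L) : bk L d i = d i := by
  funext s
  unfold bk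
  rw [if_pos h]

/-- substituted walk -/
def sw (Y : ℤ) (L : ℕ) (P : ℕ → ℤ × ℤ) (τ : ℕ → ℕ) (d : ℕ → ℕ → ℤ × ℤ) (k : ℕ) : ℤ × ℤ :=
  subst Y (ext L P) τ (bk L d) k

section
variable {Y : ℤ} {L : ℕ} {P : ℕ → ℤ × ℤ} {τ : ℕ → ℕ} {d : ℕ → ℕ → ℤ × ℤ}

theorem bk_facts (hτ : StrictMono τ) (hf : ∀ i < L, Fl Y (τ (i + 1) - τ i) (d i)) :
    (∀ i < L, Fl Y (τ (i + 1) - τ i) (bk L d i)) ∧ Blk Y 0 (bk L d L) ∧ τ L + 0 < τ (L + 1) := by
  refine ⟨fun i hi => ?_, ⟨?_, ?_, ?_, ?_⟩, hτ (Nat.lt_succ_self L)⟩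
  · rw [bk_of_lt hi]; exact hf i hi
  · unfold bk
    rw [if_neg (by omega)]
  · intro s hs s' hs' _
    omega
  · intro s hs
    omega
  · intro s h1 h2
    omega

theorem sw_tau (hτ : StrictMono τ) (h0 : τ 0 = 0) (hf : ∀ i < L, Fl Y (τ (i + 1) - τ i) (d i))
    {i : ℕ} (hi : i ≤ L) : sw Y L P τ d (τ i) = sc Y (P i) := by
  obtain ⟨hf', hr, -⟩ := bk_facts hτ hf
  have hd : bk L d i 0 = 0 := by
    rcases Nat.lt_or_ge i L with h5 | h5
    · exact (hf' i h5).blk.zero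
    · have : i = L := by omega
      rw [this]
      exact hr.zero
  unfold sw
  rw [subst_tau hτ h0 hd, ext_of_le hi]

theorem sw_mid (hτ : StrictMono τ) (h0 : τ 0 = 0) {i s : ℕ} (hi : i < L)
    (hs : s < τ (i + 1) - τ i) :
    sw Y L P τ d (τ i + s) = sc Y (P i) + rot (P (i + 1) - P i) (d i s) := by
  have hidx : idx τ (τ i + s) = i := idx_eq hτ h0 (by omega) (by omega)
  unfold sw subst
  rw [hidx, ext_of_le hi.le, ext_of_le (by omega : i + 1 ≤ L), bk_of_lt hi, Nat.add_sub_cancel_left]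

theorem sw_pt (hτ : StrictMono τ) (h0 : τ 0 = 0) (hf : ∀ i < L, Fl Y (τ (i + 1) - τ i) (d i))
    {k : ℕ} (hk : k ≤ τ L) :
    (∃ i ≤ L, k = τ i ∧ sw Y L P τ d k = sc Y (P i)) ∨
    (∃ i < L, ∃ z, dia Y z ∧ sw Y L P τ d k = sc Y (P i) + rot (P (i + 1) - P i) z) := by
  obtain ⟨h2, h3⟩ := idx_spec hτ h0 k
  obtain ⟨i, hi⟩ : ∃ i, i = idx τ k := ⟨_, rfl⟩
  have hiL : i ≤ L := by rw [hi]; exact idx_le hτ h0 (lt_of_le_of_lt hk (hτ (Nat.lt_succ_self L)))
  rw [← hi] at h2 h3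
  rcases Nat.eq_or_lt_of_le h2 with h4 | h4
  · left
    exact ⟨i, hiL, h4.symm, by rw [← h4]; exact sw_tau hτ h0 hf hiL⟩
  · right
    have hiL' : i < L := by
      by_contra hc
      have : i = L := by omega
      subst this
      omega
    obtain ⟨s, rfl⟩ : ∃ s, k = τ i + s := ⟨k - τ i, by omega⟩
    exact ⟨i, hiL', d i s, (hf i hiL').blk.dia s (by omega) (by omega),
      sw_mid hτ h0 hiL' (by omega)⟩

theorem sw_mem (hY : 1 ≤ Y) (hL : 1 ≤ L) (hadj : ∀ i < L, Adj (P i) (P (i + 1)))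
    (hinj : ∀ i ≤ L, ∀ j ≤ L, P i = P j → i = j) (hP0 : P 0 = 0)
    (hτ : StrictMono τ) (h0 : τ 0 = 0) (hf : ∀ i < L, Fl Y (τ (i + 1) - τ i) (d i))
    {n : ℕ} (hn : n = τ L) : (fun k : Fin (n + 1) => sw Y L P τ d k) ∈ walks n := by
  obtain ⟨hf', hr, hrL⟩ := bk_facts hτ hf
  have hlp := ext_lp hL hadj hinj
  refine ⟨?_, ?_, ?_⟩
  · have := sw_tau (P := P) hτ h0 hf (Nat.zero_le L)
    rw [h0, hP0] at this
    simp only [Fin.val_zero]
    rw [this]
    simp [sc]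
  · intro k k' h
    exact Fin.ext (subst_inj hY hlp hτ h0 hf' hr hrL (by omega) (by omega) h)
  · intro k
    exact subst_adj hlp hτ h0 hf' hr hrL (by have := k.2; simp only [Fin.val_castSucc]; omega)

theorem sw_inj (hadj : ∀ i < L, Adj (P i) (P (i + 1))) {d' : ℕ → ℕ → ℤ × ℤ}
    (hτ : StrictMono τ) (h0 : τ 0 = 0) {n : ℕ} (hn : n = τ L)
    (h : (fun k : Fin (n + 1) => sw Y L P τ d k) = fun k : Fin (n + 1) => sw Y L P τ d' k) :
    ∀ i < L, ∀ s < τ (i + 1) - τ i, d i s = d' i s := by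
  intro i hi s hs
  have h1 : τ (i + 1) ≤ τ L := hτ.monotone (by omega)
  have h2 := congrFun h ⟨τ i + s, by omega⟩
  simp only at h2
  rw [sw_mid hτ h0 hi hs, sw_mid hτ h0 hi hs] at h2
  exact rot_inj ((adj_iff_un _ _).1 (hadj i hi)) (add_left_cancel h2)

end

/-- the substituted network -/
theorem net_sub {A E : Type*} {s t : E → A} {l : E → ℕ} (hl : ∀ e, 1 ≤ l e) {x : A → ℤ × ℤ}
    {ω : ∀ e, Fin (l e + 1) → ℤ × ℤ} (hω : ∀ e, ω e ∈ walks (l e)) (hN : Net s t l x ω)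
    {Y : ℤ} (hY : 1 ≤ Y) {τ : E → ℕ → ℕ} (hτ : ∀ e, StrictMono (τ e)) (h0 : ∀ e, τ e 0 = 0)
    {d : E → ℕ → ℕ → ℤ × ℤ} (hf : ∀ e, ∀ i < l e, Fl Y (τ e (i + 1) - τ e i) (d e i))
    {n : E → ℕ} (hn : ∀ e, n e = τ e (l e)) (hn2 : ∀ e, 2 ≤ n e) :
    (∀ e, (fun k : Fin (n e + 1) => sw Y (l e) (ex (ω e)) (τ e) (d e) k) ∈ walks (n e)) ∧
    Net s t n (fun v => sc Y (x v))
      (fun e (k : Fin (n e + 1)) => sw Y (l e) (ex (ω e)) (τ e) (d e) k) := by
  have hpt : ∀ e (k : Fin (n e + 1)), _ := fun e k =>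
    sw_pt (Y := Y) (L := l e) (P := ex (ω e)) (hτ e) (h0 e) (hf e) (k := k)
      (by have := k.2; have := hn e; omega)
  have hvert : ∀ e e' (i : Fin (n e + 1)) (j : Fin (n e' + 1)), e ≠ e' →
      sc Y (x (s e)) + sw Y (l e) (ex (ω e)) (τ e) (d e) i =
      sc Y (x (s e')) + sw Y (l e') (ex (ω e')) (τ e') (d e') j →
      i = 0 ∨ i = Fin.last _ := by
    intro e e' i j hne h
    rcases hpt e i with ⟨a, ha, hia, hva⟩ | ⟨a, ha, z, hz, hva⟩ <;>
      rcases hpt e' j with ⟨b, hb, hjb, hvb⟩ | ⟨b, hb, z', hz', hvb⟩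
    · rw [hva, hvb, ← sc_add, ← sc_add] at h
      have h1 := sc_inj hY h
      rw [ex_of_lt (by omega : a < l e + 1), ex_of_lt (by omega : b < l e' + 1)] at h1
      rcases hN.vert e e' _ _ hne h1 with h2 | h2
      · left
        have : a = 0 := by simpa using congrArg Fin.val h2
        apply Fin.ext
        rw [hia, this, h0]
        rfl
      · right
        have : a = l e := by simpa using congrArg Fin.val h2
        apply Fin.ext
        rw [hia, this, ← hn]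
        rfl
    · rw [hva, hvb, ← sc_add, ← add_assoc, ← sc_add] at h
      exact absurd h (ver_ne hY (un_of_adj (hω e') hb) hz')
    · rw [hva, hvb, ← add_assoc, ← sc_add, ← sc_add] at h
      exact absurd h.symm (ver_ne hY (un_of_adj (hω e) ha) hz)
    · rw [hva, hvb, ← add_assoc, ← sc_add, ← add_assoc, ← sc_add] at h
      exfalso
      refine int_ne hY (un_of_adj (hω e) ha) (un_of_adj (hω e') hb) ?_ hz hz' h
      intro h1
      have h2 := hN.edge e e' ⟨a, ha⟩ ⟨b, hb⟩ hne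
      apply h2
      have e1 : x (s e) + ω e (Fin.castSucc ⟨a, ha⟩) = x (s e) + ex (ω e) a := by
        rw [ex_of_lt (by omega : a < l e + 1)]; rfl
      have e2 : x (s e) + ω e (Fin.succ ⟨a, ha⟩) = x (s e) + ex (ω e) a +
          (ex (ω e) (a + 1) - ex (ω e) a) := by
        rw [ex_of_lt (by omega : a + 1 < l e + 1)]
        simp only [Fin.succ_mk]
        abel
      have e3 : x (s e') + ω e' (Fin.castSucc ⟨b, hb⟩) = x (s e') + ex (ω e') b := by
        rw [ex_of_lt (by omega : b < l e' + 1)]; rfl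
      have e4 : x (s e') + ω e' (Fin.succ ⟨b, hb⟩) = x (s e') + ex (ω e') b +
          (ex (ω e') (b + 1) - ex (ω e') b) := by
        rw [ex_of_lt (by omega : b + 1 < l e' + 1)]
        simp only [Fin.succ_mk]
        abel
      rw [e1, e2, e3, e4]
      rcases edge_eq (un_of_adj (hω e) ha) (un_of_adj (hω e') hb) h1 with h3 | ⟨h3, h4⟩
      · rw [h3] at h1 ⊢
        have h5 := add_left_cancel h1
        rw [h5]
      · rw [← h3, ← h4]
        exact Sym2.eq_swap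
  refine ⟨fun e => ?_, ?_, ?_, ?_, ?_⟩
  · exact sw_mem hY (hl e) (ex_facts (hω e)).2.1 (ex_facts (hω e)).2.2 (ex_facts (hω e)).1
      (hτ e) (h0 e) (hf e) (hn e)
  · intro u v huv
    exact hN.inj (sc_inj hY huv)
  · intro e
    have h1 := sw_tau (Y := Y) (P := ex (ω e)) (hτ e) (h0 e) (hf e) (le_refl (l e))
    simp only [Fin.val_last]
    rw [hn e, h1, ← sc_add, hN.join e, ex_of_lt (by omega : l e < l e + 1)]
    rfl
  · exact hvert
  · intro e e' i j hne h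
    have h0 := hn2 e
    rw [Sym2.eq_iff] at h
    have h1 : (i.castSucc = 0 ∨ i.castSucc = Fin.last _) ∧ (i.succ = 0 ∨ i.succ = Fin.last _) := by
      rcases h with ⟨h1, h2⟩ | ⟨h1, h2⟩
      · exact ⟨hvert e e' _ _ hne h1, hvert e e' _ _ hne h2⟩
      · exact ⟨hvert e e' _ _ hne h1, hvert e e' _ _ hne h2⟩
    obtain ⟨h2, h3⟩ := h1
    have h4 : (i : ℕ) = 0 := by
      rcases h2 with h2 | h2
      · simpa using congrArg Fin.val h2
      · exfalso
        have := congrArg Fin.val h2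
        simp only [Fin.val_castSucc, Fin.val_last] at this
        have := i.2
        omega
    have h5 : (i : ℕ) + 1 = n e := by
      rcases h3 with h3 | h3
      · exact absurd h3 (Fin.succ_ne_zero i)
      · have := congrArg Fin.val h3
        simpa using this
    omega

end Pool.Agent.N941.NW
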