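import Pool.Agent.N941.NW.Scl

/-!
Networks with arbitrary comparable lengths.
-/

set_option autoImplicit false

namespace Pool.Agent.N941.NW

open Finset Real
open Pool.Agent.N941.SP
open Pool.Agent.H122R3.SX (Adj walks c)
open Pool.Agent.TH303.SX2 (Bd)
open Pool.Agent.N223.WB (mean)
open Pool.Agent.N223.BP (bd_mu)

theorem prod_df_le {A E : Type*} [Fintype E] {s t : E → A} {l : E → ℕ} (hl : ∀ e, 1 ≤ l e)
    {x : A → ℤ × ℤ} {ω : ∀ e, Fin (l e + 1) → ℤ × ℤ} (hω : ∀ e, ω e ∈ walks (l e))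
    (hx : Net s t l x ω) {Y : ℤ} (hY : 1 ≤ Y) {N : E → ℕ → ℕ} (hN1 : ∀ e i, 1 ≤ N e i)
    {n : E → ℕ} (hn : ∀ e, n e = ∑ i ∈ range (l e), N e i) (hn2 : ∀ e, 2 ≤ n e) :
    ∏ e, ∏ i : Fin (l e), df Y (N e i) ≤ (fnets s t n Y Y x ω).ncard := by
  classical
  have ht : ∀ e, _ := fun e => exists_tau (N e) (hN1 e)
  choose τ hτ h0 hτd hτs using ht
  have h1 : ∏ e, ∏ i : Fin (l e), df Y (N e i) =
      (Fintype.piFinset fun e => Fintype.piFinset fun i : Fin (l e) =>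
        (DF_finite Y (N e i)).toFinset).card := by
    rw [Fintype.card_piFinset]
    refine prod_congr rfl fun e _ => ?_
    rw [Fintype.card_piFinset]
    refine prod_congr rfl fun i _ => ?_
    exact Set.ncard_eq_toFinset_card _ _
  obtain ⟨F, hF⟩ : ∃ F : (∀ e, ∀ i : Fin (l e), Fin (N e i + 1) → ℤ × ℤ) → E → ℕ → ℕ → ℤ × ℤ,
      F = fun g e i s => if h : i < l e then ex (g e ⟨i, h⟩) s else 0 := ⟨_, rfl⟩
  have hFi : ∀ g e (i : Fin (l e)), F g e i = ex (g e i) := by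
    intro g e i
    rw [hF]
    funext s
    simp
  have hmem : ∀ g ∈ Fintype.piFinset fun e => Fintype.piFinset fun i : Fin (l e) =>
      (DF_finite Y (N e i)).toFinset, ∀ e, ∀ i : Fin (l e), g e i ∈ DF Y (N e i) := by
    intro g hg e i
    rw [Fintype.mem_piFinset] at hg
    have h2 := hg e
    rw [Fintype.mem_piFinset] at h2
    simpa using h2 i
  have hfl : ∀ g ∈ Fintype.piFinset fun e => Fintype.piFinset fun i : Fin (l e) =>
      (DF_finite Y (N e i)).toFinset, ∀ e, ∀ i < l e, Fl Y (τ e (i + 1) - τ e i) (F g e i) := by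
    intro g hg e i hi
    have := DF.fl hY (hmem g hg e ⟨i, hi⟩)
    rw [hτd, hFi g e ⟨i, hi⟩]
    exact this
  have hnτ : ∀ e, n e = τ e (l e) := fun e => by rw [hτs, hn]
  rw [h1, ← Set.ncard_coe_finset]
  refine Set.ncard_le_ncard_of_injOn
    (fun g e (k : Fin (n e + 1)) => sw Y (l e) (ex (ω e)) (τ e) (F g e) k) ?_ ?_
    (fnets_finite _ _ _ _ _ _ _)
  · intro g hg
    rw [mem_coe] at hg
    obtain ⟨h2, h3⟩ := net_sub hl hω hx hY hτ h0 (hfl g hg) hnτ hn2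
    exact ⟨h2, h3, fun e => sw_fo hY (hω e) (hτ e) (h0 e) (hfl g hg e) (hnτ e)⟩
  · intro g hg g' hg' h
    rw [mem_coe] at hg hg'
    funext e i
    apply DF.ext (hmem g hg e i) (hmem g' hg' e i)
    intro k hk
    have h2 := sw_inj (ex_facts (hω e)).2.1 (hτ e) (h0 e) (hnτ e) (congrFun h e) i i.2 k
      (by rw [hτd]; exact hk)
    rwa [hFi, hFi] at h2

theorem prod_pow_exp {L : ℕ} (μ x : ℝ) (g : ℕ → ℕ) :
    ∏ i : Fin L, (μ ^ (g i) * exp (-x)) = μ ^ (∑ i ∈ range L, g i) * exp (-(L * x)) := by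
  rw [prod_mul_distrib, prod_pow_eq_pow_sum, Fin.sum_univ_eq_sum_range (fun i => g i) L, prod_const,
    card_univ, Fintype.card_fin, ← exp_nat_mul]
  congr 2
  ring

/-- number of coarse steps -/
theorem exists_coarse {Λ A a D m N₀ M l : ℕ} (ha : a = 12 * ((A + 1) * (Λ + 1)))
    (hD : D = 9 * ((8 * a + 3) * (Λ + 1) + 2)) (hm : 416 ≤ m) (hN₀ : N₀ % 2 = 1)
    (hN1 : 5 * m ≤ N₀) (hN2 : N₀ ≤ 8 * m + 6) (hl : 1 ≤ l) (hlΛ : l ≤ Λ)
    (hM1 : D * m ≤ M) (hM2 : M ≤ A * (2 * D * m)) (hpar : M % 2 = l % 2) :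
    ∃ l' X : ℕ, M = N₀ * l' + 2 * X ∧ X ≤ m * l' ∧ l' % 2 = l % 2 ∧
      (8 * a + 3) * l ≤ l' ∧ l' ≤ (8 * a + 3 + 4 * (a * a)) * l := by
  have hN₀0 : 0 < N₀ := by omega
  obtain ⟨q, hq⟩ : ∃ q, q = M / N₀ := ⟨_, rfl⟩
  have hdm := Nat.div_add_mod M N₀
  have hmod := Nat.mod_lt M hN₀0
  rw [← hq] at hdm
  have hq1 : (8 * a + 3) * (Λ + 1) + 2 ≤ q := by
    rw [hq, Nat.le_div_iff_mul_le hN₀0]
    calc ((8 * a + 3) * (Λ + 1) + 2) * N₀ ≤ ((8 * a + 3) * (Λ + 1) + 2) * (9 * m) :=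
          Nat.mul_le_mul_left _ (by omega)
      _ = D * m := by rw [hD]; ring
      _ ≤ M := hM1
  have hq2 : 5 * q ≤ A * (2 * D) := by
    have h1 : N₀ * q ≤ A * (2 * D * m) := by omega
    have h2 : 5 * m * q ≤ N₀ * q := Nat.mul_le_mul_right _ hN1
    have h3 : m * (5 * q) ≤ m * (A * (2 * D)) := by
      calc m * (5 * q) = 5 * m * q := by ring
        _ ≤ A * (2 * D * m) := h2.trans h1
        _ = m * (A * (2 * D)) := by ring
    exact Nat.le_of_mul_le_mul_left h3 (by omega)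
  have hbig : A * (2 * D) ≤ 5 * (8 * a + 3 + 4 * (a * a)) := by
    obtain ⟨u, hu⟩ : ∃ u, u = (A + 1) * (Λ + 1) := ⟨_, rfl⟩
    rw [← hu] at ha
    have hu1 : A + 1 ≤ u := by rw [hu]; exact Nat.le_mul_of_pos_right _ (by omega)
    have e1 : A * (2 * D) ≤ 18 * ((8 * a + 3) * u + 2 * u) := by
      calc A * (2 * D) ≤ (A + 1) * (2 * D) := Nat.mul_le_mul_right _ (by omega)
        _ = 18 * ((8 * a + 3) * ((A + 1) * (Λ + 1)) + 2 * (A + 1)) := by rw [hD]; ring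
        _ ≤ 18 * ((8 * a + 3) * u + 2 * u) := by
          rw [← hu]
          omega
    refine e1.trans ?_
    rw [ha]
    nlinarith
  have hl' : ∃ l', l' ≤ q ∧ q ≤ l' + 1 ∧ l' % 2 = l % 2 := by
    by_cases h : q % 2 = l % 2
    · exact ⟨q, by omega, by omega, h⟩
    · exact ⟨q - 1, by omega, by omega, by omega⟩
  obtain ⟨l', hl1, hl2, hl3⟩ := hl'
  have hlow : (8 * a + 3) * (Λ + 1) + 1 ≤ l' := by omega
  have h1 : N₀ * l' ≤ N₀ * q := Nat.mul_le_mul_left _ hl1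
  have h2 : N₀ * q ≤ N₀ * l' + N₀ := by
    calc N₀ * q ≤ N₀ * (l' + 1) := Nat.mul_le_mul_left _ hl2
      _ = _ := by ring
  have h3 : (N₀ * l') % 2 = l' % 2 := by
    rw [Nat.mul_mod, hN₀, one_mul, Nat.mod_mod]
  have hQ : (8 * a + 3) * (Λ + 1) = (8 * a + 3) * Λ + (8 * a + 3) := by ring
  have ha12 : 12 ≤ a := by
    rw [ha]
    have : 1 ≤ (A + 1) * (Λ + 1) := Nat.one_le_iff_ne_zero.2 (by positivity)
    omega
  refine ⟨l', (M - N₀ * l') / 2, by omega, ?_, hl3, ?_, ?_⟩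
  · have h4 : m * 9 ≤ m * l' := Nat.mul_le_mul_left _ (by omega)
    omega
  · have : (8 * a + 3) * l ≤ (8 * a + 3) * (Λ + 1) := Nat.mul_le_mul_left _ (by omega)
    omega
  · have h5 : l' ≤ 8 * a + 3 + 4 * (a * a) := by omega
    exact h5.trans (Nat.le_mul_of_pos_right _ (by omega))

/-- **Networks with arbitrary comparable lengths.** -/
theorem lengths : ∃ κ₀ : ℝ, 0 ≤ κ₀ ∧ ∀ (Λ A a D R : ℕ), a = 12 * ((A + 1) * (Λ + 1)) →
    D = 9 * ((8 * a + 3) * (Λ + 1) + 2) → R = 8 * a + 3 + 4 * (a * a) →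
    ∀ (V E : Type) [Fintype E] (s t : E → V)
    (l : E → ℕ), (∀ e, 1 ≤ l e) → ∑ e, l e ≤ Λ → ∀ (x : V → ℤ × ℤ)
    (P : ∀ e, Fin (l e + 1) → ℤ × ℤ), (∀ e, P e ∈ walks (l e)) → Net s t l x P →
    ∀ n : ℕ, 424 * D + A + 1 ≤ n → ∀ N : E → ℕ, (∀ e, n ≤ N e ∧ N e ≤ A * n ∧ N e % 2 = l e % 2) →
      ∃ Y : ℤ, 1 ≤ Y ∧ mean n ≤ 7038 * (Λ + 2) * Y ∧ exp (-(κ₀ * R * Λ * log n ^ 3)) * ∏ e, (c (N e) : ℝ) ≤
        ((fnets s t N Y (2 * Y) x P).ncard : ℝ) := by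
  obtain ⟨K, hB⟩ := bd_mu
  obtain ⟨C₂, hC₂, hflex⟩ := exists_flex
  obtain ⟨μ, hμd⟩ : ∃ μ, μ = H981.mu := ⟨_, rfl⟩
  rw [← hμd] at hB hflex
  have hμ0 : 0 < μ := by linarith [hB.one]
  have hKn := hB.Kn
  refine ⟨C₂ + 4 * K, by positivity, ?_⟩
  intro Λ A a D R ha hD hR
  obtain ⟨κ, hκ⟩ : ∃ κ : ℝ, κ = (C₂ + 4 * K) * R := ⟨_, rfl⟩
  rw [← hκ]
  have hκ0 : 0 ≤ κ := by rw [hκ]; positivity
  have hR1 : (1 : ℝ) ≤ R := by
    have : 1 ≤ R := by rw [hR]; omega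
    exact_mod_cast this
  have ha1 : 1 ≤ a := by
    rw [ha]
    have : 1 ≤ (A + 1) * (Λ + 1) := Nat.one_le_iff_ne_zero.2 (by positivity)
    omega
  intro V E _ s t l hl hlΛ x P hP hx n hn N hNe
  have hle : ∀ e, l e ≤ Λ := fun e =>
    (single_le_sum (f := l) (fun i _ => Nat.zero_le _) (mem_univ e)).trans hlΛ
  have hD0 : 0 < D := by rw [hD]; omega
  obtain ⟨m, hm⟩ : ∃ m, m = n / D := ⟨_, rfl⟩
  have hdm := Nat.div_add_mod n D
  have hmod := Nat.mod_lt n hD0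
  rw [← hm] at hdm
  have hm424 : 424 ≤ m := by
    rw [hm, Nat.le_div_iff_mul_le hD0]
    omega
  have hm416 : 416 ≤ m := by omega
  have hmn : m ≤ n := by rw [hm]; exact Nat.div_le_self _ _
  obtain ⟨T, N₀, hT, hodd, hN1, hN2, hmean, hdf⟩ := hflex m hm424
  have hn2D : n ≤ 2 * D * m := by
    have h1 : D * 1 ≤ D * m := Nat.mul_le_mul_left _ (by omega)
    have h2 : 2 * D * m = D * m + D * m := by ring
    omega
  have hco : ∀ e, ∃ l' X : ℕ, N e = N₀ * l' + 2 * X ∧ X ≤ m * l' ∧ l' % 2 = l e % 2 ∧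
      (8 * a + 3) * l e ≤ l' ∧ l' ≤ (8 * a + 3 + 4 * (a * a)) * l e := by
    intro e
    obtain ⟨h1, h2, h3⟩ := hNe e
    exact exists_coarse ha hD hm416 hodd hN1 hN2 (hl e) (hle e) (by omega)
      (h2.trans (Nat.mul_le_mul_left _ hn2D)) h3
  choose l' X hX1 hX2 hX3 hX4 hX5 using hco
  have hl'1 : ∀ e, 1 ≤ l' e := by
    intro e
    have h1 := hX4 e
    have h2 : (8 * a + 3) * 1 ≤ (8 * a + 3) * l e := Nat.mul_le_mul_left _ (hl e)
    omega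
  obtain ⟨Q, hQ⟩ := nets_refine hl hP hx ha1 hX4 hX5 hX3
  have hf : ∀ e, ∃ f : ℕ → ℕ, (∀ i, f i ≤ m) ∧ ∑ i ∈ range (l' e), f i = X e := fun e =>
    exists_distr m (X e) (l' e) (hX2 e)
  choose f hf1 hf2 using hf
  have hsum : ∀ e, N e = ∑ i ∈ range (l' e), (N₀ + 2 * f e i) := by
    intro e
    rw [sum_two_mul_add, hf2, hX1]
  have hY1 : (1 : ℤ) ≤ ((8 * a + 3 : ℕ) : ℤ) := by exact_mod_cast (by omega : 1 ≤ 8 * a + 3)
  have hcount := (prod_df_le hl'1 hQ.1 hQ.2.1 hT (N := fun e i => N₀ + 2 * f e i)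
    (fun e i => by omega) hsum (fun e => by have := (hNe e).1; omega)).trans
    (Set.ncard_le_ncard (fnets_comp hT hY1 hQ) (fnets_finite _ _ _ _ _ _ _))
  have hcount' : ∏ e, ∏ i : Fin (l' e), (df T (N₀ + 2 * f e i) : ℝ) ≤
      ((fnets s t N (T * ((8 * a + 3 : ℕ) : ℤ)) (2 * (T * ((8 * a + 3 : ℕ) : ℤ))) x P).ncard : ℝ) := by
    exact_mod_cast hcount
  refine ⟨T * ((8 * a + 3 : ℕ) : ℤ), by nlinarith, ?_, ?_⟩
  · have g1 := hmean (2 * D) n (by omega) hn2D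
    have hTr : (1 : ℝ) ≤ T := by exact_mod_cast hT
    have g2 : D ≤ 9 * ((8 * a + 3) * (Λ + 2)) := by
      have : (8 * a + 3) * (Λ + 2) = (8 * a + 3) * (Λ + 1) + (8 * a + 3) := by ring
      omega
    have g3 : (D : ℝ) ≤ 9 * ((8 * a + 3 : ℕ) * (Λ + 2)) := by exact_mod_cast g2
    calc mean n ≤ 391 * ((2 * D : ℕ) : ℝ) * T := g1
      _ = 782 * D * T := by push_cast; ring
      _ ≤ 782 * (9 * ((8 * a + 3 : ℕ) * (Λ + 2))) * T := by gcongr
      _ = _ := by push_cast; ring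
  refine le_trans ?_ hcount'
  -- numerics
  have hmr : (416 : ℝ) ≤ m := by exact_mod_cast hm416
  have hnr : (m : ℝ) ≤ n := by exact_mod_cast hmn
  have hlm1 : 1 ≤ log (m : ℝ) := by
    rw [← log_exp 1]
    apply log_le_log (exp_pos _)
    have := exp_one_lt_d9
    linarith
  have hlmn : log (m : ℝ) ≤ log n := log_le_log (by linarith) hnr
  have hl3 : log (m : ℝ) ^ 3 ≤ log n ^ 3 := pow_le_pow_left₀ (by linarith) hlmn 3
  have hl23 : log (n : ℝ) ^ 2 ≤ log n ^ 3 := pow_le_pow_right₀ (by linarith) (by norm_num)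
  have hl30 : 0 ≤ log (n : ℝ) ^ 3 := pow_nonneg (by linarith) 3
  have step1 : exp (-(κ * Λ * log n ^ 3)) * ∏ e, (c (N e) : ℝ) ≤
      ∏ e, (exp (-(κ * (l e : ℝ) * log n ^ 3)) * (c (N e) : ℝ)) := by
    rw [prod_mul_distrib, ← exp_sum]
    refine mul_le_mul_of_nonneg_right (exp_le_exp.2 ?_) (prod_nonneg fun e _ => Nat.cast_nonneg _)
    rw [sum_neg_distrib, ← sum_mul, ← mul_sum, neg_le_neg_iff]
    have h1 : ∑ e, (l e : ℝ) ≤ Λ := by exact_mod_cast hlΛ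
    gcongr
  refine step1.trans ?_
  refine prod_le_prod (fun e _ => by positivity) fun e _ => ?_
  have hN2' : 2 ≤ N e := by have := (hNe e).1; omega
  have h5 := hB.up (N e) hN2'
  have h6 : log (N e : ℝ) ≤ 2 * log n := by
    have h7 : (N e : ℝ) ≤ (n : ℝ) ^ 2 := by
      have h8 : N e ≤ n * n := (hNe e).2.1.trans (Nat.mul_le_mul_right _ (by omega))
      have h9 : (N e : ℝ) ≤ (n : ℝ) * n := by exact_mod_cast h8
      nlinarith
    have h8 := log_le_log (by exact_mod_cast (by omega : 0 < N e)) h7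
    rw [log_pow] at h8
    exact_mod_cast h8
  have h7 : log (N e : ℝ) ^ 2 ≤ 4 * log n ^ 3 := by
    calc log (N e : ℝ) ^ 2 ≤ (2 * log n) ^ 2 := pow_le_pow_left₀ (log_natCast_nonneg _) h6 2
      _ = 4 * log n ^ 2 := by ring
      _ ≤ _ := by linarith
  have hlr : (1 : ℝ) ≤ l e := by exact_mod_cast hl e
  have hl'R : (l' e : ℝ) ≤ R * l e := by
    rw [hR]
    exact_mod_cast hX5 e
  calc exp (-(κ * (l e : ℝ) * log n ^ 3)) * (c (N e) : ℝ)
      ≤ exp (-(κ * (l e : ℝ) * log n ^ 3)) * (μ ^ (N e) * exp (K * log (N e : ℝ) ^ 2)) := by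
        gcongr
    _ = μ ^ (N e) * exp (-(κ * (l e : ℝ) * log n ^ 3) + K * log (N e : ℝ) ^ 2) := by
        rw [exp_add]; ring
    _ ≤ μ ^ (N e) * exp (-((l' e : ℝ) * (C₂ * log m ^ 3))) := by
        gcongr
        have b1 : K * log (N e : ℝ) ^ 2 ≤ K * (4 * log n ^ 3) := by gcongr
        have b2 : K * (4 * log n ^ 3) ≤ 4 * K * (l e : ℝ) * log n ^ 3 := by
          have : 0 ≤ 4 * K * log n ^ 3 := by positivity
          nlinarith
        have b3 : (l' e : ℝ) * (C₂ * log m ^ 3) ≤ R * l e * (C₂ * log n ^ 3) := by gcongr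
        have b4 : R * l e * (C₂ * log n ^ 3) + 4 * K * (l e : ℝ) * log n ^ 3 ≤
          κ * (l e : ℝ) * log n ^ 3 := by
          have b5 : 0 ≤ 4 * K * (l e : ℝ) * log n ^ 3 := by positivity
          have b6 : κ * (l e : ℝ) * log n ^ 3 = R * l e * (C₂ * log n ^ 3) +
            R * (4 * K * (l e : ℝ) * log n ^ 3) := by rw [hκ]; ring
          nlinarith
        linarith
    _ = ∏ i : Fin (l' e), (μ ^ (N₀ + 2 * f e i) * exp (-(C₂ * log m ^ 3))) := by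
        rw [prod_pow_exp μ (C₂ * log m ^ 3) (fun i => N₀ + 2 * f e i), ← hsum e]
    _ ≤ ∏ i : Fin (l' e), (df T (N₀ + 2 * f e i) : ℝ) :=
        prod_le_prod (fun i _ => by positivity) fun i _ => hdf _ (hf1 e i)

end Pool.Agent.N941.NW
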