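import Pool.Agent.N941.SP.Sup

/-!
Networks of self-avoiding walks: substitution of diamond walks in a drawing.
-/

set_option autoImplicit false

namespace Pool.Agent.N941.NW

open Finset Real
open Pool.Agent.N941.SP
open Pool.Agent.H122R3.SX (Adj W X pos Saw c walks fs mem_fs ncard_walks walks_finite pos_append
  pos_nil pos_cons st)

/-- the points of the substituted walk -/
theorem wk_pt {Y : ℤ} {L m : ℕ} {P : ℕ → ℤ × ℤ} (hY : 1 ≤ Y) (hL : 1 ≤ L) (hm : 1 ≤ m)
    (hadj : ∀ i < L, Adj (P i) (P (i + 1))) (hinj : ∀ i ≤ L, ∀ j ≤ L, P i = P j → i = j)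
    {w : ℕ → W} (hw : ∀ i < L, Dm Y (w i) ∧ (w i).length = m) (k : Fin (m * L + 1)) :
    (∃ i ≤ L, (k : ℕ) = m * i ∧ wk Y L m (m * L) P w k = sc Y (P i)) ∨
    (∃ i < L, ∃ z, dia Y z ∧ wk Y L m (m * L) P w k = sc Y (P i) + rot (P (i + 1) - P i) z) := by
  obtain ⟨hf, hr, hrL⟩ := blk_facts hY hL hm (by omega : 0 < m) (by simp only [Nat.cast_zero]; omega) hadj hinj hw
  have hτ := mul_mono hm
  have hτ0 : (fun i => m * i) 0 = 0 := Nat.mul_zero m
  have hk : (k : ℕ) ≤ m * L := by have := k.2; omega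
  obtain ⟨h2, h3⟩ := idx_spec hτ hτ0 (k : ℕ)
  obtain ⟨i, hi⟩ : ∃ i, i = idx (fun i => m * i) (k : ℕ) := ⟨_, rfl⟩
  have hiL : i ≤ L := by rw [hi]; exact idx_le hτ hτ0 (by omega)
  simp only [← hi] at h2 h3
  rcases Nat.eq_or_lt_of_le h2 with h4 | h4
  · left
    refine ⟨i, hiL, h4.symm, ?_⟩
    unfold wk
    have hd : blk L w i 0 = 0 := by
      rcases Nat.lt_or_ge i L with h5 | h5
      · exact (hf i h5).blk.zero
      · have : i = L := by omega
        rw [this]
        exact hr.zero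
    have h6 := subst_tau (Y := Y) (p := ext L P) (τ := fun i => m * i) (d := blk L w) hτ hτ0 hd
    rw [← h4, h6, ext_of_le hiL]
  · right
    have hiL' : i < L := by
      by_contra hc
      have : i = L := by omega
      subst this
      omega
    refine ⟨i, hiL', blk L w i (k - m * i), ?_, ?_⟩
    · refine (hf i hiL').blk.dia _ (by omega) ?_
      have e : m * (i + 1) - m * i = m := by rw [mul_add, mul_one]; omega
      rw [e]
      rw [mul_add, mul_one] at h3
      omega
    · unfold wk subst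
      rw [← hi, ext_of_le hiL, ext_of_le (by omega : i + 1 ≤ L)]

/-- the walks `w e` form a network with vertices at `x` -/
structure Net {A E : Type*} (s t : E → A) (n : E → ℕ) (x : A → ℤ × ℤ)
    (w : ∀ e, Fin (n e + 1) → ℤ × ℤ) : Prop where
  inj : Function.Injective x
  join : ∀ e, x (t e) = x (s e) + w e (Fin.last _)
  vert : ∀ e e' i j, e ≠ e' → x (s e) + w e i = x (s e') + w e' j → i = 0 ∨ i = Fin.last _
  edge : ∀ e e' (i : Fin (n e)) (j : Fin (n e')), e ≠ e' →
    s(x (s e) + w e i.castSucc, x (s e) + w e i.succ) ≠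
      s(x (s e') + w e' j.castSucc, x (s e') + w e' j.succ)

theorem sc_add (Y : ℤ) (u v : ℤ × ℤ) : sc Y (u + v) = sc Y u + sc Y v := by
  unfold sc
  ext
  · simp only [Prod.fst_add]; ring
  · simp only [Prod.snd_add]; ring

/-- a walk as a function on the natural numbers -/
def ex {n : ℕ} (ω : Fin (n + 1) → ℤ × ℤ) (k : ℕ) : ℤ × ℤ := if h : k < n + 1 then ω ⟨k, h⟩ else 0

theorem ex_of_lt {n : ℕ} {ω : Fin (n + 1) → ℤ × ℤ} {k : ℕ} (h : k < n + 1) :
    ex ω k = ω ⟨k, h⟩ := dif_pos h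

theorem ex_facts {n : ℕ} {ω : Fin (n + 1) → ℤ × ℤ} (h : ω ∈ walks n) :
    ex ω 0 = 0 ∧ (∀ i < n, Adj (ex ω i) (ex ω (i + 1))) ∧
      (∀ i ≤ n, ∀ j ≤ n, ex ω i = ex ω j → i = j) := by
  obtain ⟨h0, h1, h2⟩ := h
  refine ⟨?_, ?_, ?_⟩
  · rw [ex_of_lt (by omega : 0 < n + 1)]
    exact h0
  · intro i hi
    rw [ex_of_lt (by omega : i < n + 1), ex_of_lt (by omega : i + 1 < n + 1)]
    exact h2 ⟨i, hi⟩
  · intro i hi j hj hij
    rw [ex_of_lt (by omega : i < n + 1), ex_of_lt (by omega : j < n + 1)] at hij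
    have := h1 hij
    simpa using this

theorem un_of_adj {n : ℕ} {ω : Fin (n + 1) → ℤ × ℤ} (h : ω ∈ walks n) {i : ℕ} (hi : i < n) :
    Un (ex ω (i + 1) - ex ω i) := (adj_iff_un _ _).1 ((ex_facts h).2.1 i hi)

/-- the substituted network -/
theorem net_wk {A E : Type*} {s t : E → A} {l : E → ℕ} (hl : ∀ e, 1 ≤ l e) {x : A → ℤ × ℤ}
    {ω : ∀ e, Fin (l e + 1) → ℤ × ℤ} (hω : ∀ e, ω e ∈ walks (l e)) (hN : Net s t l x ω)
    {Y : ℤ} (hY : 1 ≤ Y) {m : ℕ} (hm : 2 ≤ m)
    {w : E → ℕ → W} (hw : ∀ e, ∀ i < l e, Dm Y (w e i) ∧ (w e i).length = m) :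
    (∀ e, wk Y (l e) m (m * l e) (ex (ω e)) (w e) ∈ walks (m * l e)) ∧
    Net s t (fun e => m * l e) (fun v => sc Y (x v))
      (fun e => wk Y (l e) m (m * l e) (ex (ω e)) (w e)) := by
  have hm1 : 1 ≤ m := by omega
  have hpt : ∀ e (k : Fin (m * l e + 1)), _ := fun e k =>
    wk_pt hY (hl e) hm1 (ex_facts (hω e)).2.1 (ex_facts (hω e)).2.2 (hw e) k
  have hvert : ∀ e e' (i : Fin (m * l e + 1)) (j : Fin (m * l e' + 1)), e ≠ e' →
      sc Y (x (s e)) + wk Y (l e) m (m * l e) (ex (ω e)) (w e) i =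
      sc Y (x (s e')) + wk Y (l e') m (m * l e') (ex (ω e')) (w e') j →
      i = 0 ∨ i = Fin.last _ := by
    intro e e' i j hne h
    rcases hpt e i with ⟨a, ha, hia, hva⟩ | ⟨a, ha, z, hz, hva⟩ <;>
      rcases hpt e' j with ⟨b, hb, hjb, hvb⟩ | ⟨b, hb, z', hz', hvb⟩
    · rw [hva, hvb, ← sc_add, ← sc_add] at h
      have h1 := sc_inj hY h
      rw [ex_of_lt (by omega : a < l e + 1), ex_of_lt (by omega : b < l e' + 1)] at h1
      rcases hN.vert e e' _ _ hne h1 with h2 | h2
      · left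
        have : a = 0 := by simpa using congrArg Fin.val h2
        apply Fin.ext
        rw [hia, this, mul_zero]
        rfl
      · right
        have : a = l e := by simpa using congrArg Fin.val h2
        apply Fin.ext
        rw [hia, this]
        rfl
    · rw [hva, hvb, ← sc_add, ← add_assoc, ← sc_add] at h
      exact absurd h (ver_ne hY (un_of_adj (hω e') hb) hz')
    · rw [hva, hvb, ← add_assoc, ← sc_add, ← sc_add] at h
      exact absurd h.symm (ver_ne hY (un_of_adj (hω e) ha) hz)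
    · rw [hva, hvb, ← add_assoc, ← sc_add, ← add_assoc, ← sc_add] at h
      exfalso
      refine int_ne hY (un_of_adj (hω e) ha) (un_of_adj (hω e') hb) ?_ hz hz' h
      intro h1
      have h2 := hN.edge e e' ⟨a, ha⟩ ⟨b, hb⟩ hne
      apply h2
      have e1 : x (s e) + ω e (Fin.castSucc ⟨a, ha⟩) = x (s e) + ex (ω e) a := by
        rw [ex_of_lt (by omega : a < l e + 1)]; rfl
      have e2 : x (s e) + ω e (Fin.succ ⟨a, ha⟩) = x (s e) + ex (ω e) a +
          (ex (ω e) (a + 1) - ex (ω e) a) := by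
        rw [ex_of_lt (by omega : a + 1 < l e + 1)]
        simp only [Fin.succ_mk]
        abel
      have e3 : x (s e') + ω e' (Fin.castSucc ⟨b, hb⟩) = x (s e') + ex (ω e') b := by
        rw [ex_of_lt (by omega : b < l e' + 1)]; rfl
      have e4 : x (s e') + ω e' (Fin.succ ⟨b, hb⟩) = x (s e') + ex (ω e') b +
          (ex (ω e') (b + 1) - ex (ω e') b) := by
        rw [ex_of_lt (by omega : b + 1 < l e' + 1)]
        simp only [Fin.succ_mk]
        abel
      rw [e1, e2, e3, e4]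
      rcases edge_eq (un_of_adj (hω e) ha) (un_of_adj (hω e') hb) h1 with h3 | ⟨h3, h4⟩
      · rw [h3] at h1 ⊢
        have h5 := add_left_cancel h1
        rw [h5]
      · rw [← h3, ← h4]
        exact Sym2.eq_swap
  refine ⟨fun e => ?_, ?_, ?_, ?_, ?_⟩
  · have := wk_mem hY (hl e) hm1 (by omega : 0 < m) (by simp only [Nat.cast_zero]; omega) (ex_facts (hω e)).2.1
      (ex_facts (hω e)).2.2 (ex_facts (hω e)).1 (hw e)
    exact this
  · intro u v huv
    exact hN.inj (sc_inj hY huv)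
  · intro e
    rcases hpt e (Fin.last _) with ⟨a, ha, hia, hva⟩ | ⟨a, ha, z, hz, hva⟩
    · have h1 : a = l e := by
        rw [Fin.val_last] at hia
        exact (Nat.eq_of_mul_eq_mul_left (by omega) hia).symm
      rw [hva, ← sc_add, hN.join e, h1, ex_of_lt (by omega : l e < l e + 1)]
      rfl
    · exfalso
      obtain ⟨hf, hr, hrL⟩ := blk_facts hY (hl e) hm1 (by omega : 0 < m) (by simp only [Nat.cast_zero]; omega)
        (ex_facts (hω e)).2.1 (ex_facts (hω e)).2.2 (hw e)
      have h6 := subst_tau (Y := Y) (p := ext (l e) (ex (ω e))) (τ := fun i => m * i)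
        (d := blk (l e) (w e)) (mul_mono hm1) (Nat.mul_zero m) hr.zero
      unfold wk at hva
      rw [Fin.val_last, h6] at hva
      exact ver_ne hY (un_of_adj (hω e) ha) hz hva
  · exact hvert
  · intro e e' i j hne h
    have h0 : 2 ≤ m * l e := by
      have := Nat.mul_le_mul hm (hl e)
      omega
    rw [Sym2.eq_iff] at h
    have h1 : (i.castSucc = 0 ∨ i.castSucc = Fin.last _) ∧ (i.succ = 0 ∨ i.succ = Fin.last _) := by
      rcases h with ⟨h1, h2⟩ | ⟨h1, h2⟩
      · exact ⟨hvert e e' _ _ hne h1, hvert e e' _ _ hne h2⟩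
      · exact ⟨hvert e e' _ _ hne h1, hvert e e' _ _ hne h2⟩
    obtain ⟨h2, h3⟩ := h1
    have h4 : (i : ℕ) = 0 := by
      rcases h2 with h2 | h2
      · simpa using congrArg Fin.val h2
      · exfalso
        have := congrArg Fin.val h2
        simp only [Fin.val_castSucc, Fin.val_last] at this
        have := i.2
        omega
    have h5 : (i : ℕ) + 1 = m * l e := by
      rcases h3 with h3 | h3
      · exact absurd h3 (Fin.succ_ne_zero i)
      · have := congrArg Fin.val h3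
        simpa using this
    omega

end Pool.Agent.N941.NW
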