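import Pool.Agent.N941.NW.Cnt

/-!
Four self-avoiding walks of arbitrary lengths.
-/

set_option autoImplicit false

namespace Pool.Agent.N941.NW

open Finset Real
open Pool.Agent.N941.SP
open Pool.Agent.H122R3.SX (Adj W X pos Saw c walks fs mem_fs ncard_walks walks_finite)
open Pool.Agent.TH303.SX2 (Bd)

theorem ncard_pi_walks {E : Type*} [Fintype E] (n : E → ℕ) :
    {ω : ∀ e, Fin (n e + 1) → ℤ × ℤ | ∀ e, ω e ∈ walks (n e)}.ncard = ∏ e, c (n e) := by
  classical
  have h : {ω : ∀ e, Fin (n e + 1) → ℤ × ℤ | ∀ e, ω e ∈ walks (n e)} =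
      ((Fintype.piFinset fun e => (walks_finite (n e)).toFinset : Finset _) : Set _) := by
    ext ω
    rw [mem_coe, Fintype.mem_piFinset]
    simp only [Set.Finite.mem_toFinset]
    rfl
  rw [h, Set.ncard_coe_finset, Fintype.card_piFinset]
  refine prod_congr rfl fun e _ => ?_
  rw [← Set.ncard_eq_toFinset_card _ (walks_finite (n e)), ncard_walks]

/-- walks which meet only at their starting points -/
def stars {E : Type*} (n : E → ℕ) : Set (∀ e, Fin (n e + 1) → ℤ × ℤ) :=
  {ω | (∀ e, ω e ∈ walks (n e)) ∧ ∀ e e' i j, e ≠ e' → ω e i = ω e' j → i = 0}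

theorem stars_finite {E : Type*} [Finite E] (n : E → ℕ) : (stars n).Finite :=
  (pi_walks_finite n).subset fun _ hω => hω.1

theorem trunc_mem {n N : ℕ} (h : n ≤ N) {ω : Fin (N + 1) → ℤ × ℤ} (hω : ω ∈ walks N) :
    (fun a : Fin (n + 1) => ω ⟨a, by omega⟩) ∈ walks n ∧
    (fun b : Fin (N - n + 1) => ω ⟨n + b, by omega⟩ - ω ⟨n, by omega⟩) ∈ walks (N - n) := by
  obtain ⟨h0, h1, h2⟩ := hω
  refine ⟨⟨h0, ?_, ?_⟩, ⟨?_, ?_, ?_⟩⟩
  · intro a b hab
    have := h1 hab
    rw [Fin.mk.injEq] at this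
    exact Fin.ext this
  · intro i
    exact h2 ⟨i, by omega⟩
  · simp only [Fin.val_zero, add_zero, sub_self]
  · intro a b hab
    have := h1 (sub_left_injective hab)
    rw [Fin.mk.injEq] at this
    exact Fin.ext (by omega)
  · intro i
    have h3 := h2 ⟨n + i, by omega⟩
    rw [adj_iff_un] at h3 ⊢
    have e : ω ⟨n + (i.succ : Fin (N - n + 1)), by omega⟩ - ω ⟨n, by omega⟩ -
        (ω ⟨n + (i.castSucc : Fin (N - n + 1)), by omega⟩ - ω ⟨n, by omega⟩) =
        ω (Fin.succ ⟨n + i, by omega⟩) - ω (Fin.castSucc ⟨n + i, by omega⟩) := by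
      rw [sub_sub_sub_cancel_right]
      rfl
    rw [e]
    exact h3

theorem stars_trunc {E : Type*} [Fintype E] {N : ℕ} {n : E → ℕ} (hn : ∀ e, n e ≤ N) :
    (stars (fun _ : E => N)).ncard ≤ (stars n).ncard * ∏ e, c (N - n e) := by
  classical
  rw [← ncard_pi_walks, ← Set.ncard_prod]
  refine Set.ncard_le_ncard_of_injOn (fun ω => (fun e (a : Fin (n e + 1)) => ω e ⟨a, by
      have := hn e; omega⟩, fun e (b : Fin (N - n e + 1)) => ω e ⟨n e + b, by
      have := hn e; omega⟩ - ω e ⟨n e, by have := hn e; omega⟩)) ?_ ?_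
    ((stars_finite n).prod (pi_walks_finite _))
  · rintro ω ⟨h1, h2⟩
    refine ⟨⟨fun e => (trunc_mem (hn e) (h1 e)).1, ?_⟩, fun e => (trunc_mem (hn e) (h1 e)).2⟩
    intro e e' i j hne h
    have := congrArg Fin.val (h2 e e' _ _ hne h)
    exact Fin.ext this
  · rintro ω - ω' - h
    rw [Prod.mk.injEq] at h
    obtain ⟨h1, h2⟩ := h
    funext e k
    have h3 : ∀ k (hk : k ≤ n e), ω e ⟨k, by have := hn e; omega⟩ = ω' e ⟨k, by
        have := hn e; omega⟩ := by
      intro k hk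
      exact congrFun (congrFun h1 e) ⟨k, by omega⟩
    rcases Nat.lt_or_ge (n e) k with hk | hk
    · have h4 := congrFun (congrFun h2 e) ⟨k - n e, by omega⟩
      simp only at h4
      rw [h3 (n e) le_rfl] at h4
      have h5 := sub_left_injective h4
      have e1 : (⟨n e + (k - n e), by omega⟩ : Fin (N + 1)) = k := Fin.ext (by simp only; omega)
      rwa [e1] at h5
    · exact h3 k hk

/-- the four unit vectors -/
def uv (e : Fin 4) : ℤ × ℤ := ![(0, 1), (0, -1), (1, 0), (-1, 0)] e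

theorem uv_inj : Function.Injective uv := by
  intro a b h
  fin_cases a <;> fin_cases b <;> first | rfl | (exfalso; revert h; simp [uv])

theorem uv_ne (e : Fin 4) : uv e ≠ 0 := by
  intro h
  fin_cases e <;> (revert h; simp [uv])

theorem star_net : (nets (fun _ : Fin 4 => (none : Option (Fin 4))) (fun e => some e)
    (fun _ => 1)).Nonempty := by
  refine ⟨fun e k => if (k : ℕ) = 0 then 0 else uv e, fun e => ?_,
    fun v => v.elim 0 uv, ?_, ?_, ?_, ?_⟩
  · refine ⟨by simp, ?_, ?_⟩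
    · intro a b h
      have ha : (a : ℕ) < 2 := a.2
      have hb : (b : ℕ) < 2 := b.2
      apply Fin.ext
      by_contra hne
      simp only at h
      split_ifs at h with h1 h2 h2
      · omega
      · exact uv_ne e h.symm
      · exact uv_ne e h
      · omega
    · intro i
      have : (i : ℕ) = 0 := by
        have : (i : ℕ) < 1 := i.2
        omega
      simp only [Fin.val_castSucc, this, if_true, Fin.val_succ]
      fin_cases e <;> simp [uv, Adj]
  · intro u v h
    rcases u with _ | u <;> rcases v with _ | v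
    · rfl
    · exact absurd h.symm (uv_ne v)
    · exact absurd h (uv_ne u)
    · rw [uv_inj h]
  · intro e
    simp
  · intro e e' i j _ _
    have : (i : ℕ) < 2 := i.2
    rcases Nat.eq_zero_or_pos (i : ℕ) with h | h
    · left; exact Fin.ext h
    · right; exact Fin.ext (by simp only [Fin.val_last]; omega)
  · intro e e' i j hne h
    have hi : (i : ℕ) = 0 := by
      have : (i : ℕ) < 1 := i.2
      omega
    have hj : (j : ℕ) = 0 := by
      have : (j : ℕ) < 1 := j.2
      omega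
    simp only [Fin.val_castSucc, Fin.val_succ, hi, hj, if_true, Option.elim, zero_add,
      one_ne_zero, if_false] at h
    rw [Sym2.eq_iff] at h
    rcases h with ⟨-, h⟩ | ⟨h, -⟩
    · exact hne (uv_inj h)
    · exact uv_ne e' h.symm

theorem nets_stars {m : ℕ} (hm : 1 ≤ m) :
    nets (fun _ : Fin 4 => (none : Option (Fin 4))) (fun e => some e) (fun _ => m) ⊆
      stars (fun _ : Fin 4 => m) := by
  rintro ω ⟨hω, x, hx⟩
  refine ⟨hω, fun e e' i j hne h => ?_⟩
  have h1 : x none + ω e i = x none + ω e' j := by rw [h]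
  rcases hx.vert e e' i j hne h1 with h2 | h2
  · exact h2
  · exfalso
    rcases hx.vert e' e j i hne.symm h1.symm with h3 | h3
    · rw [h3, (hω e').1] at h
      have h4 := (hω e).2.1 (h.trans (hω e).1.symm)
      rw [h2] at h4
      have := congrArg Fin.val h4
      simp only [Fin.val_last, Fin.val_zero] at this
      omega
    · rw [h2, h3, ← hx.join e, ← hx.join e'] at h1
      exact hne (Option.some_injective _ (hx.inj h1))

/-- **Four walks of arbitrary lengths.** -/
theorem four : ∃ K : ℝ, 0 ≤ K ∧ ∀ N : ℕ, 2 ≤ N → ∀ n : Fin 4 → ℕ, (∀ e, n e ≤ N) →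
    exp (-(K * log N ^ 3)) * ∏ e, (c (n e) : ℝ) ≤ ((stars n).ncard : ℝ) := by
  obtain ⟨K, hK0, hK⟩ := networks
  obtain ⟨μ, KB, hB⟩ := Pool.Agent.TH303.SX2.exists_Bd
  have hμ0 : 0 < μ := by linarith [hB.one]
  have hKn := hB.Kn
  refine ⟨4 * K + 16 * KB + 96, by positivity, fun N hN n hn => ?_⟩
  have hNr : (2 : ℝ) ≤ N := by exact_mod_cast hN
  obtain ⟨L, hL⟩ : ∃ L, L = log (N : ℝ) := ⟨_, rfl⟩
  rw [← hL]
  have hL1 : 1 / 2 ≤ L := by
    have h7 : log 2 ≤ log (N : ℝ) := log_le_log (by norm_num) hNr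
    have := log_two_gt_d9
    rw [hL]
    linarith
  have hL2 : L ^ 2 ≤ 2 * L ^ 3 := by nlinarith [sq_nonneg L]
  have hL3 : 1 ≤ 8 * L ^ 3 := by
    have : (1 / 2 : ℝ) ^ 3 ≤ L ^ 3 := pow_le_pow_left₀ (by norm_num) hL1 3
    linarith
  have h1 := hK (Option (Fin 4)) (Fin 4) _ _ _ (fun _ => le_rfl) star_net N hN
  simp only [mul_one, prod_const, card_univ, Fintype.card_fin, sum_const, smul_eq_mul] at h1
  rw [← hL, mul_one] at h1
  have h2 : (nets (fun _ : Fin 4 => (none : Option (Fin 4))) (fun e => some e)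
      (fun _ => N)).ncard ≤ (stars (fun _ : Fin 4 => N)).ncard :=
    Set.ncard_le_ncard (nets_stars (by omega)) (stars_finite _)
  have h3 := stars_trunc hn
  have h4 : exp (-(K * ((4 : ℕ) : ℝ) * L ^ 3)) * (c N : ℝ) ^ 4 ≤
      ((stars n).ncard : ℝ) * ∏ e, (c (N - n e) : ℝ) := by
    refine h1.trans ?_
    have := h2.trans h3
    exact_mod_cast this
  have hcpos : ∀ k, (0 : ℝ) < c k := by
    intro k
    have := Pool.Agent.H122R3.SX.two_pow_le k
    have h2 : 0 < 2 ^ k := by positivity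
    exact_mod_cast (by omega : 0 < c k)
  have hP : 0 < ∏ e, (c (N - n e) : ℝ) := prod_pos fun e _ => hcpos _
  refine le_of_mul_le_mul_right (le_trans ?_ h4) hP
  have h5 : ∀ e, (c (n e) : ℝ) * (c (N - n e) : ℝ) ≤ 16 * exp (2 * KB * L ^ 2) * c N := by
    intro e
    have a1 := hB.c_le4 (hn e)
    have a2 := hB.c_le4 (Nat.sub_le N (n e))
    have a3 := hB.low N hN
    rw [← hL] at a1 a2
    have a4 : μ ^ N = μ ^ (n e) * μ ^ (N - n e) := by
      rw [← pow_add]
      congr 1
      have := hn e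
      omega
    calc (c (n e) : ℝ) * (c (N - n e) : ℝ) ≤ (4 * μ ^ (n e) * exp (KB * L ^ 2)) *
          (4 * μ ^ (N - n e) * exp (KB * L ^ 2)) := by
          gcongr
      _ = 16 * exp (2 * KB * L ^ 2) * μ ^ N := by
          rw [a4, show 2 * KB * L ^ 2 = KB * L ^ 2 + KB * L ^ 2 by ring, exp_add]
          ring
      _ ≤ _ := by gcongr
  have h6 : (∏ e, (c (n e) : ℝ)) * ∏ e, (c (N - n e) : ℝ) ≤
      (16 * exp (2 * KB * L ^ 2) * c N) ^ 4 := by
    rw [← prod_mul_distrib]
    have := prod_le_prod (s := (univ : Finset (Fin 4)))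
      (f := fun e => (c (n e) : ℝ) * (c (N - n e) : ℝ))
      (g := fun _ => 16 * exp (2 * KB * L ^ 2) * (c N : ℝ))
      (fun e _ => by positivity) (fun e _ => h5 e)
    rw [prod_const, card_univ, Fintype.card_fin] at this
    exact this
  calc exp (-((4 * K + 16 * KB + 96) * L ^ 3)) * (∏ e, (c (n e) : ℝ)) *
        ∏ e, (c (N - n e) : ℝ)
      = exp (-((4 * K + 16 * KB + 96) * L ^ 3)) * ((∏ e, (c (n e) : ℝ)) *
        ∏ e, (c (N - n e) : ℝ)) := by ring
    _ ≤ exp (-((4 * K + 16 * KB + 96) * L ^ 3)) * (16 * exp (2 * KB * L ^ 2) * c N) ^ 4 := by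
      gcongr
    _ = (16 ^ 4 * exp (-((4 * K + 16 * KB + 96) * L ^ 3) + 8 * KB * L ^ 2)) * (c N : ℝ) ^ 4 := by
      rw [exp_add, mul_pow, mul_pow, ← exp_nat_mul]
      push_cast
      rw [show (4 : ℝ) * (2 * KB * L ^ 2) = 8 * KB * L ^ 2 by ring]
      ring
    _ ≤ exp (-(K * ((4 : ℕ) : ℝ) * L ^ 3)) * (c N : ℝ) ^ 4 := by
      gcongr
      have b1 : (16 : ℝ) ^ 4 ≤ exp 12 := by
        have := exp_one_gt_d9
        have b2 : exp 12 = exp 1 ^ 12 := by
          rw [← exp_nat_mul]; norm_num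
        rw [b2]
        calc (16 : ℝ) ^ 4 ≤ 2.7182818283 ^ 12 := by norm_num
          _ ≤ _ := by gcongr
      calc (16 : ℝ) ^ 4 * exp (-((4 * K + 16 * KB + 96) * L ^ 3) + 8 * KB * L ^ 2)
          ≤ exp 12 * exp (-((4 * K + 16 * KB + 96) * L ^ 3) + 8 * KB * L ^ 2) := by gcongr
        _ = exp (12 + (-((4 * K + 16 * KB + 96) * L ^ 3) + 8 * KB * L ^ 2)) := by rw [exp_add 12]
        _ ≤ _ := by
          apply exp_le_exp.2
          push_cast
          nlinarith [mul_le_mul_of_nonneg_left hL2 hKn]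

end Pool.Agent.N941.NW
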