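import Pool.Agent.N941.NW.Len
import Pool.Agent.N941.NW.Star

/-!
Networks whose pendant edges have arbitrary lengths.
-/

set_option autoImplicit false

namespace Pool.Agent.N941.NW

open Finset Real
open Pool.Agent.N941.SP
open Pool.Agent.H122R3.SX (Adj walks c walks_finite)
open Pool.Agent.TH303.SX2 (Bd)
open Pool.Agent.N223.WB (mean)

/-- an edge whose end point belongs to no other edge -/
def Pend {A E : Type*} (s t : E → A) (e : E) : Prop := ∀ e', s e' ≠ t e ∧ (t e' = t e → e' = e)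

/-- truncation of the pendant edges -/
theorem net_trunc {A E : Type*} {s t : E → A} (hcov : ∀ v, ∃ e, v = s e ∨ v = t e)
    {n N : E → ℕ} (hn1 : ∀ e, 1 ≤ n e) (hnN : ∀ e, n e ≤ N e)
    (hneq : ∀ e, ¬ Pend s t e → n e = N e) {x : A → ℤ × ℤ} {ω : ∀ e, Fin (N e + 1) → ℤ × ℤ}
    (hω : ∀ e, ω e ∈ walks (N e)) (hx : Net s t N x ω) :
    ∃ x', Net s t n x' (fun e (a : Fin (n e + 1)) => ω e ⟨a, by have := hnN e; omega⟩) ∧
      ∀ v, (∀ e, t e = v → n e = N e) → x' v = x v := by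
  classical
  have hx0 : ∀ e, x (s e) = x (s e) + ω e 0 := by
    intro e
    rw [(hω e).1, add_zero]
  obtain ⟨x', hx'⟩ : ∃ x' : A → ℤ × ℤ, x' = fun v => if h : ∃ e, Pend s t e ∧ t e = v then
      x (s h.choose) + ω h.choose ⟨n h.choose, by have := hnN h.choose; omega⟩ else x v := ⟨_, rfl⟩
  have hxp : ∀ e, Pend s t e → x' (t e) = x (s e) + ω e ⟨n e, by have := hnN e; omega⟩ := by
    intro e he
    have h : ∃ e', Pend s t e' ∧ t e' = t e := ⟨e, he, rfl⟩
    have h2 : h.choose = e := (he h.choose).2 h.choose_spec.2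
    rw [hx']
    simp only
    rw [dif_pos h]
    have key : ∀ e', e' = e → x (s e') + ω e' ⟨n e', by have := hnN e'; omega⟩ =
        x (s e) + ω e ⟨n e, by have := hnN e; omega⟩ := by
      rintro _ rfl
      rfl
    exact key _ h2
  have hxn : ∀ v, (¬ ∃ e, Pend s t e ∧ t e = v) → x' v = x v := by
    intro v hv
    rw [hx']
    simp only
    rw [dif_neg hv]
  have hs : ∀ e, x' (s e) = x (s e) := by
    intro e
    apply hxn
    rintro ⟨e', he', h⟩
    exact (he' e).1 h.symm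
  -- a non pendant vertex is not hit by the interior of a pendant edge
  have key : ∀ e, Pend s t e → ∀ v, (¬ ∃ e, Pend s t e ∧ t e = v) →
      x (s e) + ω e ⟨n e, by have := hnN e; omega⟩ ≠ x v := by
    intro e he v hv h
    obtain ⟨e', hv'⟩ := hcov v
    by_cases hee : e' = e
    · subst hee
      rcases hv' with rfl | rfl
      · have h1 : ω e' ⟨n e', by have := hnN e'; omega⟩ = ω e' 0 := by
          have := h.trans (hx0 e')
          exact add_left_cancel this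
        have h2 := congrArg Fin.val ((hω e').2.1 h1)
        simp only [Fin.val_zero] at h2
        have := hn1 e'
        omega
      · exact hv ⟨e', he, rfl⟩
    · have h3 : ∃ j : Fin (N e' + 1), x v = x (s e') + ω e' j := by
        rcases hv' with rfl | rfl
        · exact ⟨0, hx0 e'⟩
        · exact ⟨Fin.last _, hx.join e'⟩
      obtain ⟨j, hj⟩ := h3
      rcases hx.vert e e' _ j (Ne.symm hee) (h.trans hj) with h4 | h4
      · have h2 := congrArg Fin.val h4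
        simp only [Fin.val_zero] at h2
        have := hn1 e
        omega
      · rw [h4, ← hx.join e] at h
        exact hv ⟨e, he, hx.inj h⟩
  refine ⟨x', ⟨?_, ?_, ?_, ?_⟩, ?_⟩
  · intro u v huv
    by_cases hu : ∃ e, Pend s t e ∧ t e = u <;> by_cases hv : ∃ e, Pend s t e ∧ t e = v
    · obtain ⟨e, he, rfl⟩ := hu
      obtain ⟨e', he', rfl⟩ := hv
      rw [hxp e he, hxp e' he'] at huv
      by_contra hne
      have hee : e ≠ e' := fun h => hne (by rw [h])
      have h1 : (⟨n e, by have := hnN e; omega⟩ : Fin (N e + 1)) = Fin.last _ := by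
        rcases hx.vert e e' _ _ hee huv with h4 | h4
        · have h2 := congrArg Fin.val h4
          simp only [Fin.val_zero] at h2
          have := hn1 e
          omega
        · exact h4
      have h2 : (⟨n e', by have := hnN e'; omega⟩ : Fin (N e' + 1)) = Fin.last _ := by
        rcases hx.vert e' e _ _ hee.symm huv.symm with h4 | h4
        · have h2 := congrArg Fin.val h4
          simp only [Fin.val_zero] at h2
          have := hn1 e'
          omega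
        · exact h4
      rw [h1, h2, ← hx.join e, ← hx.join e'] at huv
      exact hne (hx.inj huv)
    · obtain ⟨e, he, rfl⟩ := hu
      rw [hxp e he, hxn v hv] at huv
      exact absurd huv (key e he v hv)
    · obtain ⟨e, he, rfl⟩ := hv
      rw [hxp e he, hxn u hu] at huv
      exact absurd huv.symm (key e he u hu)
    · rw [hxn u hu, hxn v hv] at huv
      exact hx.inj huv
  · intro e
    rw [hs e]
    by_cases he : Pend s t e
    · exact hxp e he
    · have h1 : x' (t e) = x (t e) := by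
        apply hxn
        rintro ⟨e', he', h⟩
        have := (he' e).2 h.symm
        subst this
        exact he he'
      rw [h1, hx.join e]
      have h2 : (Fin.last (N e)) = ⟨((Fin.last (n e) : Fin (n e + 1)) : ℕ), by
          have := hnN e; simp only [Fin.val_last]; omega⟩ := by
        apply Fin.ext
        simp only [Fin.val_last]
        rw [hneq e he]
      rw [h2]
  · intro e e' i j hne h
    rcases hx.vert e e' _ _ hne (by rw [hs, hs] at h; exact h) with h1 | h1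
    · left
      exact Fin.ext (by simpa using congrArg Fin.val h1)
    · right
      apply Fin.ext
      have h2 := congrArg Fin.val h1
      simp only [Fin.val_last] at h2 ⊢
      have := i.2
      have := hnN e
      omega
  · intro e e' i j hne
    rw [hs, hs]
    exact hx.edge e e' ⟨i, by have := hnN e; have := i.2; omega⟩
      ⟨j, by have := hnN e'; have := j.2; omega⟩ hne
  · intro v hv
    by_cases h : ∃ e, Pend s t e ∧ t e = v
    · obtain ⟨e, he, rfl⟩ := h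
      rw [hxp e he]
      have h2 : (⟨n e, by have := hnN e; omega⟩ : Fin (N e + 1)) = Fin.last (N e) :=
        Fin.ext (hv e rfl)
      rw [h2, ← hx.join e]
    · exact hxn v h

/-- networks with pendant edges of arbitrary lengths, which follow a drawing -/
def gnets {A E : Type*} (s t : E → A) (F : E → Prop) (n : E → ℕ) (Y b : ℤ) (x₀ : A → ℤ × ℤ)
    {l : E → ℕ} (P : ∀ e, Fin (l e + 1) → ℤ × ℤ) : Set (∀ e, Fin (n e + 1) → ℤ × ℤ) :=
  {ω | (∀ e, ω e ∈ walks (n e)) ∧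
    (∃ x, Net s t n x ω ∧ ∀ v, (∀ e, t e = v → F e) → x v = sc Y (x₀ v)) ∧
    ∀ e, ∃ σ, (F e → σ (Fin.last (n e)) = Fin.last (l e)) ∧ Fo Y b (P e) (ω e) σ}

theorem gnets_finite {A E : Type*} [Finite E] (s t : E → A) (F : E → Prop) (n : E → ℕ) (Y b : ℤ)
    (x : A → ℤ × ℤ) {l : E → ℕ} (P : ∀ e, Fin (l e + 1) → ℤ × ℤ) :
    (gnets s t F n Y b x P).Finite :=
  (pi_walks_finite n).subset fun _ hω => hω.1

theorem nets_trunc {A E : Type*} [Fintype E] {s t : E → A} (hcov : ∀ v, ∃ e, v = s e ∨ v = t e)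
    {n N : E → ℕ} (hn1 : ∀ e, 1 ≤ n e) (hnN : ∀ e, n e ≤ N e)
    (hneq : ∀ e, ¬ Pend s t e → n e = N e) {F : E → Prop} (hF : ∀ e, F e → n e = N e)
    {Y b : ℤ} {x₀ : A → ℤ × ℤ} {l : E → ℕ} {P : ∀ e, Fin (l e + 1) → ℤ × ℤ} :
    (fnets s t N Y b x₀ P).ncard ≤ (gnets s t F n Y b x₀ P).ncard * ∏ e, c (N e - n e) := by
  classical
  rw [← ncard_pi_walks, ← Set.ncard_prod]
  refine Set.ncard_le_ncard_of_injOn (fun ω => (fun e (a : Fin (n e + 1)) => ω e ⟨a, by
      have := hnN e; omega⟩, fun e (b : Fin (N e - n e + 1)) => ω e ⟨n e + b, by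
      have := hnN e; omega⟩ - ω e ⟨n e, by have := hnN e; omega⟩)) ?_ ?_
    ((gnets_finite _ _ _ _ _ _ _ _).prod (pi_walks_finite _))
  · rintro ω ⟨h1, hx, h3⟩
    obtain ⟨x', hx', hx''⟩ := net_trunc hcov hn1 hnN hneq h1 hx
    refine ⟨⟨fun e => (trunc_mem (hnN e) (h1 e)).1, ⟨x', hx', fun v hv => hx'' v fun e he =>
      hF e (hv e he)⟩, ?_⟩, fun e => (trunc_mem (hnN e) (h1 e)).2⟩
    intro e
    obtain ⟨σ, hσ, hσ2⟩ := h3 e
    refine ⟨fun a => σ ⟨a, by have := hnN e; omega⟩, ?_, ?_, fun k k' hk => hσ2.step _ _ hk,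
      ?_, ?_⟩
    · intro he
      rw [← hσ]
      have h4 : (⟨n e, by have := hnN e; omega⟩ : Fin (N e + 1)) = Fin.last (N e) :=
        Fin.ext (hF e he)
      exact congrArg σ h4
    · intro a a' haa
      exact hσ2.mono haa
    · exact hσ2.zero
    · intro k
      exact hσ2.near _
  · rintro ω - ω' - h
    rw [Prod.mk.injEq] at h
    obtain ⟨h1, h2⟩ := h
    funext e k
    have h3 : ∀ k (hk : k ≤ n e), ω e ⟨k, by have := hnN e; omega⟩ = ω' e ⟨k, by
        have := hnN e; omega⟩ := by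
      intro k hk
      exact congrFun (congrFun h1 e) ⟨k, by omega⟩
    rcases Nat.lt_or_ge (n e) k with hk | hk
    · have h4 := congrFun (congrFun h2 e) ⟨k - n e, by omega⟩
      simp only at h4
      rw [h3 (n e) le_rfl] at h4
      have h5 := sub_left_injective h4
      have e1 : (⟨n e + (k - n e), by omega⟩ : Fin (N e + 1)) = k := Fin.ext (by simp only; omega)
      rwa [e1] at h5
    · exact h3 k hk

/-- **Networks**: comparable lengths for the inner edges, arbitrary lengths for the pendant ones. -/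
theorem main : ∃ K : ℝ, 0 < K ∧ ∀ (V E : Type) [Fintype E] [Nonempty E] (s t : E → V)
    (l : E → ℕ), (∀ v, ∃ e, v = s e ∨ v = t e) → (∀ e, 1 ≤ l e) → ∀ (x : V → ℤ × ℤ)
    (P : ∀ e, Fin (l e + 1) → ℤ × ℤ), (∀ e, P e ∈ walks (l e)) → Net s t l x P →
    ∀ A n : ℕ, 1 ≤ A → K * A * (∑ e, (l e : ℝ)) ^ 2 ≤ n →
      ∀ N : E → ℕ, (∀ e, 1 ≤ N e ∧ N e ≤ A * n) →
      (∀ e, Pend s t e ∨ n ≤ N e ∧ N e % 2 = l e % 2) →
      ∃ Y : ℤ, 1 ≤ Y ∧ mean n ≤ K * (∑ e, (l e : ℝ)) * Y ∧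
      exp (-(K * A ^ 2 * (∑ e, (l e : ℝ)) ^ 3 * log n ^ 3)) * ∏ e, (c (N e) : ℝ) ≤
        ((gnets s t (fun e => n ≤ N e ∧ N e % 2 = l e % 2) N Y (2 * Y) x P).ncard : ℝ) := by
  classical
  obtain ⟨κ₀, hκ0, hK'⟩ := lengths
  obtain ⟨μ, KB, hB⟩ := Pool.Agent.TH303.SX2.exists_Bd
  have hμ0 : 0 < μ := by linarith [hB.one]
  have hKn := hB.Kn
  refine ⟨37635 * κ₀ + (8 * KB + 16) + 6000000, by positivity, ?_⟩
  intro V E _ _ s t l hcov hl x P hP hx A n hA hn' N hN1 hN2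
  obtain ⟨Λ, hΛ⟩ : ∃ Λ, Λ = ∑ e, l e := ⟨_, rfl⟩
  have hΛr : ∑ e, (l e : ℝ) = Λ := by rw [hΛ]; push_cast; rfl
  rw [hΛr] at hn' ⊢
  have hlΛ : ∑ e, l e ≤ Λ := hΛ.ge
  have hΛ1 : 1 ≤ Λ := by
    have e := Classical.arbitrary E
    have := single_le_sum (f := l) (fun i _ => Nat.zero_le _) (mem_univ e)
    have := hl e
    omega
  obtain ⟨a, ha⟩ : ∃ a, a = 12 * ((A + 2 + 1) * (Λ + 1)) := ⟨_, rfl⟩
  obtain ⟨D, hD⟩ : ∃ D, D = 9 * ((8 * a + 3) * (Λ + 1) + 2) := ⟨_, rfl⟩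
  obtain ⟨R, hR⟩ : ∃ R, R = 8 * a + 3 + 4 * (a * a) := ⟨_, rfl⟩
  have hK := hK' Λ (A + 2) a D R ha hD hR
  obtain ⟨K, hKd⟩ : ∃ K, K = κ₀ * R * Λ := ⟨_, rfl⟩
  rw [← hKd] at hK
  have haAΛ : a ≤ 96 * (A * Λ) := by
    have h1 : (A + 2 + 1) * (Λ + 1) ≤ (4 * A) * (2 * Λ) := Nat.mul_le_mul (by omega) (by omega)
    calc a = 12 * ((A + 2 + 1) * (Λ + 1)) := ha
      _ ≤ 12 * ((4 * A) * (2 * Λ)) := Nat.mul_le_mul_left _ h1
      _ = _ := by ring
  have hAΛ : 1 ≤ A * Λ := Nat.one_le_iff_ne_zero.2 (by positivity)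
  have hRle : (R : ℝ) ≤ 37635 * (A ^ 2 * Λ ^ 2) := by
    have h1 : R ≤ 37635 * ((A * Λ) * (A * Λ)) := by
      have h2 : a * a ≤ (96 * (A * Λ)) * (96 * (A * Λ)) := Nat.mul_le_mul haAΛ haAΛ
      have h3 : A * Λ ≤ (A * Λ) * (A * Λ) := Nat.le_mul_of_pos_left _ (by omega)
      have h4 : (96 * (A * Λ)) * (96 * (A * Λ)) = 9216 * ((A * Λ) * (A * Λ)) := by ring
      rw [hR]
      omega
    have h2 : (R : ℝ) ≤ 37635 * (((A : ℝ) * Λ) * ((A : ℝ) * Λ)) := by exact_mod_cast h1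
    calc (R : ℝ) ≤ _ := h2
      _ = _ := by ring
  have hDle : D ≤ 13896 * (A * (Λ * Λ)) := by
    have h1 : (8 * a + 3) * (Λ + 1) ≤ (771 * (A * Λ)) * (2 * Λ) :=
      Nat.mul_le_mul (by omega) (by omega)
    have h2 : (771 * (A * Λ)) * (2 * Λ) = 1542 * (A * (Λ * Λ)) := by ring
    have h3 : 1 ≤ A * (Λ * Λ) := Nat.one_le_iff_ne_zero.2 (by positivity)
    rw [hD]
    omega
  have hn : 424 * D + 2 * A + 6 ≤ n := by
    have h3 : A ≤ A * (Λ * Λ) := Nat.le_mul_of_pos_right _ (by positivity)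
    have h4 : 1 ≤ A * (Λ * Λ) := Nat.one_le_iff_ne_zero.2 (by positivity)
    have h1 : 424 * D + 2 * A + 6 ≤ 6000000 * (A * (Λ * Λ)) := by omega
    have h2 : ((424 * D + 2 * A + 6 : ℕ) : ℝ) ≤ 6000000 * ((A : ℝ) * (Λ * Λ)) := by
      exact_mod_cast h1
    have h5 : 6000000 * ((A : ℝ) * (Λ * Λ)) ≤
        (37635 * κ₀ + (8 * KB + 16) + 6000000) * A * (Λ : ℝ) ^ 2 := by
      have h6 : 0 ≤ (37635 * κ₀ + (8 * KB + 16)) * ((A : ℝ) * (Λ * Λ)) := by positivity
      nlinarith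
    exact_mod_cast h2.trans (h5.trans hn')
  have hlog0 : 0 ≤ log (n : ℝ) ^ 3 := pow_nonneg (log_natCast_nonneg n) 3
  have hfin : (K + Λ * (8 * KB + 16)) * log n ^ 3 ≤
      (37635 * κ₀ + (8 * KB + 16) + 6000000) * A ^ 2 * (Λ : ℝ) ^ 3 * log n ^ 3 := by
    refine mul_le_mul_of_nonneg_right ?_ hlog0
    have hAr : (1 : ℝ) ≤ A := by exact_mod_cast hA
    have hΛr1 : (1 : ℝ) ≤ Λ := by exact_mod_cast hΛ1
    have h1 : K ≤ 37635 * κ₀ * (A ^ 2 * (Λ : ℝ) ^ 3) := by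
      rw [hKd]
      calc κ₀ * R * Λ ≤ κ₀ * (37635 * (A ^ 2 * Λ ^ 2)) * Λ := by gcongr
        _ = _ := by ring
    have h2 : (Λ : ℝ) ≤ A ^ 2 * (Λ : ℝ) ^ 3 := by
      have h3 : (1 : ℝ) ≤ (A : ℝ) ^ 2 := one_le_pow₀ hAr
      have h4 : (Λ : ℝ) ≤ (Λ : ℝ) ^ 3 := le_self_pow₀ hΛr1 (by norm_num)
      have h5 : 0 ≤ (Λ : ℝ) ^ 3 := by positivity
      nlinarith
    have h3 : Λ * (8 * KB + 16) ≤ (8 * KB + 16) * (A ^ 2 * (Λ : ℝ) ^ 3) := by
      rw [mul_comm]
      exact mul_le_mul_of_nonneg_left h2 (by positivity)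
    have h4 : 0 ≤ 6000000 * ((A : ℝ) ^ 2 * (Λ : ℝ) ^ 3) := by positivity
    have h5 : (37635 * κ₀ + (8 * KB + 16) + 6000000) * A ^ 2 * (Λ : ℝ) ^ 3 =
        37635 * κ₀ * (A ^ 2 * (Λ : ℝ) ^ 3) + (8 * KB + 16) * (A ^ 2 * (Λ : ℝ) ^ 3) +
        6000000 * ((A : ℝ) ^ 2 * (Λ : ℝ) ^ 3) := by ring
    rw [h5]
    linarith
  suffices hsuff : ∃ Y : ℤ, 1 ≤ Y ∧ mean n ≤ 7038 * (Λ + 2) * Y ∧
      exp (-((K + Λ * (8 * KB + 16)) * log n ^ 3)) *
      ∏ e, (c (N e) : ℝ) ≤
        ((gnets s t (fun e => n ≤ N e ∧ N e % 2 = l e % 2) N Y (2 * Y) x P).ncard : ℝ) by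
    obtain ⟨Y, hY, hY3, hY2⟩ := hsuff
    have hYr : (1 : ℝ) ≤ Y := by exact_mod_cast hY
    have hΛr1 : (1 : ℝ) ≤ Λ := by exact_mod_cast hΛ1
    have hY4 : 7038 * ((Λ : ℝ) + 2) * Y ≤
        (37635 * κ₀ + (8 * KB + 16) + 6000000) * Λ * Y := by
      apply mul_le_mul_of_nonneg_right _ (by linarith)
      have h6 : 0 ≤ (37635 * κ₀ + (8 * KB + 16)) * (Λ : ℝ) := by positivity
      nlinarith
    exact ⟨Y, hY, hY3.trans hY4, le_trans (mul_le_mul_of_nonneg_right (exp_le_exp.2 (neg_le_neg hfin))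
      (prod_nonneg fun e _ => Nat.cast_nonneg _)) hY2⟩
  -- the longer network
  have hM : ∀ e, ∃ M, N e ≤ M ∧ (n ≤ M ∧ M ≤ (A + 2) * n ∧ M % 2 = l e % 2) ∧
      (n ≤ N e ∧ N e % 2 = l e % 2 → N e = M) := by
    intro e
    obtain ⟨h1, h2⟩ := hN1 e
    have h3 : (A + 2) * n = A * n + n + n := by ring
    by_cases he : n ≤ N e ∧ N e % 2 = l e % 2
    · exact ⟨N e, le_rfl, ⟨he.1, by omega, he.2⟩, fun _ => rfl⟩
    · obtain ⟨q, hq⟩ : ∃ q, q = max (N e) n := ⟨_, rfl⟩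
      have hq1 : N e ≤ q := by rw [hq]; exact le_max_left _ _
      have hq2 : n ≤ q := by rw [hq]; exact le_max_right _ _
      have hq3 : q ≤ A * n + n := by
        rw [hq]
        exact max_le (by omega) (by omega)
      by_cases h4 : q % 2 = l e % 2
      · exact ⟨q, hq1, ⟨hq2, by omega, h4⟩, fun h => absurd h he⟩
      · exact ⟨q + 1, by omega, ⟨by omega, by omega, by omega⟩, fun h => absurd h he⟩
  choose M hNM hM2 hM3 using hM
  obtain ⟨Y, hY, hYm, h1⟩ := hK V E s t l hl hlΛ x P hP hx n (by omega) M hM2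
  refine ⟨Y, hY, hYm, ?_⟩
  have h2 := nets_trunc hcov (fun e => (hN1 e).1) hNM (fun e he => hM3 e ((hN2 e).resolve_left he))
    (F := fun e => n ≤ N e ∧ N e % 2 = l e % 2) hM3 (Y := Y) (b := 2 * Y) (x₀ := x) (P := P)
  have hnr : (3 : ℝ) ≤ n := by exact_mod_cast (by omega : 3 ≤ n)
  have hl1 : 1 ≤ log (n : ℝ) := by
    rw [← log_exp 1]
    apply log_le_log (exp_pos _)
    have := exp_one_lt_d9
    linarith
  have hl23 : log (n : ℝ) ^ 2 ≤ log n ^ 3 := pow_le_pow_right₀ hl1 (by norm_num)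
  have hl31 : 1 ≤ log (n : ℝ) ^ 3 := one_le_pow₀ hl1
  have hcpos : ∀ k, (0 : ℝ) < c k := by
    intro k
    have := Pool.Agent.H122R3.SX.two_pow_le k
    have h2 : 0 < 2 ^ k := by positivity
    exact_mod_cast (by omega : 0 < c k)
  have hP : 0 < ∏ e, (c (M e - N e) : ℝ) := prod_pos fun e _ => hcpos _
  have h4 : exp (-(K * log n ^ 3)) * ∏ e, (c (M e) : ℝ) ≤
      ((gnets s t (fun e => n ≤ N e ∧ N e % 2 = l e % 2) N Y (2 * Y) x P).ncard : ℝ) *
        ∏ e, (c (M e - N e) : ℝ) := by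
    refine h1.trans ?_
    exact_mod_cast h2
  refine le_of_mul_le_mul_right (le_trans ?_ h4) hP
  have h5 : ∀ e, (c (N e) : ℝ) * (c (M e - N e) : ℝ) ≤
      exp ((8 * KB + 16) * log n ^ 3) * c (M e) := by
    intro e
    have hM4 : 2 ≤ M e := by have := (hM2 e).1; omega
    have a1 := hB.c_le4 (hNM e)
    have a2 := hB.c_le4 (Nat.sub_le (M e) (N e))
    have a3 := hB.low (M e) hM4
    have a4 : μ ^ (M e) = μ ^ (N e) * μ ^ (M e - N e) := by
      rw [← pow_add]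
      congr 1
      have := hNM e
      omega
    have a5 : log (M e : ℝ) ^ 2 ≤ 4 * log n ^ 3 := by
      have b1 : log (M e : ℝ) ≤ 2 * log n := by
        have b2 : (M e : ℝ) ≤ (n : ℝ) ^ 2 := by
          have b3 : M e ≤ n * n := (hM2 e).2.1.trans (Nat.mul_le_mul_right _ (by omega))
          have b4 : (M e : ℝ) ≤ (n : ℝ) * n := by exact_mod_cast b3
          nlinarith
        have b3 := log_le_log (by exact_mod_cast (by omega : 0 < M e)) b2
        rw [log_pow] at b3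
        exact_mod_cast b3
      calc log (M e : ℝ) ^ 2 ≤ (2 * log n) ^ 2 := pow_le_pow_left₀ (log_natCast_nonneg _) b1 2
        _ = 4 * log n ^ 2 := by ring
        _ ≤ _ := by linarith
    have a6 : (16 : ℝ) ≤ exp (16 * log n ^ 3) := by
      have := add_one_le_exp (16 * log (n : ℝ) ^ 3)
      linarith
    calc (c (N e) : ℝ) * (c (M e - N e) : ℝ) ≤ (4 * μ ^ (N e) * exp (KB * log (M e : ℝ) ^ 2)) *
          (4 * μ ^ (M e - N e) * exp (KB * log (M e : ℝ) ^ 2)) := by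
          gcongr
      _ = 16 * exp (2 * KB * log (M e : ℝ) ^ 2) * μ ^ (M e) := by
          rw [a4, show 2 * KB * log (M e : ℝ) ^ 2 = KB * log (M e : ℝ) ^ 2 +
            KB * log (M e : ℝ) ^ 2 by ring, exp_add]
          ring
      _ ≤ exp (16 * log n ^ 3) * exp (2 * KB * (4 * log n ^ 3)) * c (M e) := by gcongr
      _ = _ := by
          rw [← exp_add]
          congr 2
          ring
  have h6 : (∏ e, (c (N e) : ℝ)) * ∏ e, (c (M e - N e) : ℝ) ≤
      exp (Λ * (8 * KB + 16) * log n ^ 3) * ∏ e, (c (M e) : ℝ) := by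
    rw [← prod_mul_distrib]
    refine (prod_le_prod (fun e _ => by positivity) fun e _ => h5 e).trans ?_
    rw [prod_mul_distrib, prod_const, ← exp_nat_mul]
    have h7 : Fintype.card E ≤ Λ := by
      calc Fintype.card E = ∑ _e : E, 1 := by simp
        _ ≤ ∑ e, l e := sum_le_sum fun e _ => hl e
        _ ≤ Λ := hlΛ
    have h8 : ((univ : Finset E).card : ℝ) ≤ Λ := by
      rw [card_univ]; exact_mod_cast h7
    have h9 : 0 ≤ (8 * KB + 16) * log (n : ℝ) ^ 3 := by positivity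
    have h10 : 0 ≤ ∏ e, (c (M e) : ℝ) := prod_nonneg fun e _ => Nat.cast_nonneg _
    refine mul_le_mul_of_nonneg_right (exp_le_exp.2 ?_) h10
    calc ((univ : Finset E).card : ℝ) * ((8 * KB + 16) * log (n : ℝ) ^ 3) ≤
        Λ * ((8 * KB + 16) * log (n : ℝ) ^ 3) := by gcongr
      _ = _ := by ring
  calc exp (-((K + Λ * (8 * KB + 16)) * log n ^ 3)) * (∏ e, (c (N e) : ℝ)) *
        ∏ e, (c (M e - N e) : ℝ)
      = exp (-((K + Λ * (8 * KB + 16)) * log n ^ 3)) * ((∏ e, (c (N e) : ℝ)) *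
        ∏ e, (c (M e - N e) : ℝ)) := by ring
    _ ≤ exp (-((K + Λ * (8 * KB + 16)) * log n ^ 3)) *
        (exp (Λ * (8 * KB + 16) * log n ^ 3) * ∏ e, (c (M e) : ℝ)) := by gcongr
    _ = (exp (-((K + Λ * (8 * KB + 16)) * log n ^ 3)) *
        exp (Λ * (8 * KB + 16) * log n ^ 3)) * ∏ e, (c (M e) : ℝ) := by ring
    _ = exp (-(K * log n ^ 3)) * ∏ e, (c (M e) : ℝ) := by
        rw [← exp_add]
        congr 2
        ring

end Pool.Agent.N941.NW
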