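import Pool.Agent.N941.NW.Fol
import Pool.Agent.N941.NW.Cnt

/-!
Refinement of a drawing with given lengths.
-/

set_option autoImplicit false

namespace Pool.Agent.N941.NW

open Finset Real
open Pool.Agent.N941.SP
open Pool.Agent.H122R3.SX (Adj V W X pos Saw c walks fs mem_fs ncard_walks walks_finite pos_append
  pos_nil pos_cons st X_append saw_append G_elem)

/-- one more straight step -/
theorem Dm.snoc {Y : ℤ} (hY : 1 ≤ Y) {w : W} (h : Dm Y w) : Dm (Y + 1) (w ++ [0]) := by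
  have h0 : pos ([0] : W) 0 = 1 := by simp [st]
  have hX : X ([0] : W) = 0 := by
    show pos ([0] : W) 1 = 0
    simp [st]
  refine ⟨?_, ?_, ?_, ?_⟩
  · refine saw_append h.saw G_elem.saw h.top ?_ G_elem.low
    intro v hv
    exact (h.pre hY hv).2.1
  · rw [pos_append, h.top, h0]
  · rw [X_append, h.hor, hX]; rfl
  · intro v hv hv0 hv1
    rw [List.prefix_concat_iff] at hv
    rcases hv with hv | hv
    · exact absurd hv hv1
    · by_cases h2 : v = w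
      · rw [h2, h.top, h.hor, abs_zero]
        rcases abs_cases (2 * Y - (Y + 1)) with h5 | h5 <;> omega
      · have h3 := h.mid v hv hv0 h2
        rcases abs_cases (2 * pos v 0 - (Y + 1)) with h5 | h5 <;>
          rcases abs_cases (2 * pos v 0 - Y) with h6 | h6 <;> omega

theorem dm_succ {Y : ℤ} (hY : 1 ≤ Y) (m : ℕ) : dm Y m ≤ dm (Y + 1) (m + 1) := by
  unfold dm
  refine card_le_card_of_injOn (fun w => w ++ [0]) ?_ ?_
  · intro w hw
    rw [mem_coe, mem_fs] at hw ⊢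
    exact ⟨Dm.snoc hY hw.1, by rw [List.length_append, hw.2]; rfl⟩
  · intro w _ w' _ h
    exact List.append_cancel_right h

/-- distribution of a sum -/
theorem exists_distr (B X L : ℕ) (h : X ≤ B * L) :
    ∃ f : ℕ → ℕ, (∀ i, f i ≤ B) ∧ ∑ i ∈ range L, f i = X := by
  refine ⟨fun i => min B (X - B * i), fun i => min_le_left _ _, ?_⟩
  have key : ∀ L, ∑ i ∈ range L, min B (X - B * i) = min X (B * L) := by
    intro L
    induction L with
    | zero => simp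
    | succ L ih =>
      rw [sum_range_succ, ih, mul_add, mul_one]
      omega
  rw [key]
  omega

/-- times -/
theorem exists_tau (N : ℕ → ℕ) (hN : ∀ i, 1 ≤ N i) : ∃ τ : ℕ → ℕ, StrictMono τ ∧ τ 0 = 0 ∧
    (∀ i, τ (i + 1) - τ i = N i) ∧ ∀ L, τ L = ∑ i ∈ range L, N i := by
  refine ⟨fun L => ∑ i ∈ range L, N i, ?_, by simp, ?_, fun L => rfl⟩
  · apply strictMono_nat_of_lt_succ
    intro i
    rw [sum_range_succ]
    have := hN i
    omega
  · intro i
    show ∑ j ∈ range (i + 1), N j - ∑ j ∈ range i, N j = N i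
    rw [sum_range_succ]
    omega

theorem sum_two_mul_add (N₀ L : ℕ) (f : ℕ → ℕ) :
    ∑ i ∈ range L, (N₀ + 2 * f i) = N₀ * L + 2 * ∑ i ∈ range L, f i := by
  rw [sum_add_distrib, sum_const, card_range, smul_eq_mul, mul_sum, mul_comm]

/-- networks which follow the drawing `x`, `P` enlarged by `Y` -/
def fnets {A E : Type*} (s t : E → A) (n : E → ℕ) (Y b : ℤ) (x : A → ℤ × ℤ) {l : E → ℕ}
    (P : ∀ e, Fin (l e + 1) → ℤ × ℤ) : Set (∀ e, Fin (n e + 1) → ℤ × ℤ) :=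
  {ω | (∀ e, ω e ∈ walks (n e)) ∧ Net s t n (fun v => sc Y (x v)) ω ∧
    ∀ e, ∃ σ, σ (Fin.last (n e)) = Fin.last (l e) ∧ Fo Y b (P e) (ω e) σ}

theorem fnets_finite {A E : Type*} [Finite E] (s t : E → A) (n : E → ℕ) (Y b : ℤ) (x : A → ℤ × ℤ)
    {l : E → ℕ} (P : ∀ e, Fin (l e + 1) → ℤ × ℤ) : (fnets s t n Y b x P).Finite :=
  (pi_walks_finite n).subset fun _ hω => hω.1

theorem sc_sc (T Y : ℤ) (v : ℤ × ℤ) : sc T (sc Y v) = sc (T * Y) v := by
  unfold sc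
  simp only [mul_assoc]

theorem fnets_comp {A E : Type*} {s t : E → A} {l m n : E → ℕ} {T Y : ℤ} (hT : 1 ≤ T) (hY : 1 ≤ Y)
    {x : A → ℤ × ℤ} {P : ∀ e, Fin (l e + 1) → ℤ × ℤ} {Q : ∀ e, Fin (m e + 1) → ℤ × ℤ}
    (hQ : Q ∈ fnets s t m Y Y x P) :
    fnets s t n T T (fun v => sc Y (x v)) Q ⊆ fnets s t n (T * Y) (2 * (T * Y)) x P := by
  rintro ω ⟨h1, h2, h3⟩
  refine ⟨h1, ?_, fun e => ?_⟩
  · have e : (fun v => sc T (sc Y (x v))) = fun v => sc (T * Y) (x v) := by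
      funext v
      exact sc_sc _ _ _
    rwa [e] at h2
  · obtain ⟨ρ, hρ, hρ2⟩ := h3 e
    obtain ⟨σ, hσ, hσ2⟩ := hQ.2.2 e
    have h4 := hσ2.comp (by omega : 0 ≤ T) hρ2
    refine ⟨σ ∘ ρ, ?_, h4.mono, h4.step, h4.zero, fun k => (h4.near k).trans ?_⟩
    · show σ (ρ _) = _
      rw [hρ, hσ]
    · nlinarith

/-- **Refinement** of a drawing -/
theorem nets_refine {A E : Type*} {s t : E → A} {l l' : E → ℕ} (hl : ∀ e, 1 ≤ l e)
    {x : A → ℤ × ℤ} {ω : ∀ e, Fin (l e + 1) → ℤ × ℤ} (hω : ∀ e, ω e ∈ walks (l e))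
    (hx : Net s t l x ω) {a : ℕ} (ha : 1 ≤ a) (h1 : ∀ e, (8 * a + 3) * l e ≤ l' e)
    (h2 : ∀ e, l' e ≤ (8 * a + 3 + 4 * (a * a)) * l e) (h3 : ∀ e, l' e % 2 = l e % 2) :
    (fnets s t l' ((8 * a + 3 : ℕ) : ℤ) ((8 * a + 3 : ℕ) : ℤ) x ω).Nonempty := by
  have hw : ∀ E ≤ 2 * a * a, ∃ w : W, Dm ((8 * a + 3 : ℕ) : ℤ) w ∧
      w.length = 8 * a + 3 + 2 * E := by
    intro E hE
    obtain ⟨w, hw, hwl⟩ := exists_wiggle ha hE
    refine ⟨w ++ [0], ?_, ?_⟩
    · have := Dm.snoc (by exact_mod_cast (by omega : 1 ≤ 8 * a + 2)) hw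
      have e : ((8 * a + 2 : ℕ) : ℤ) + 1 = ((8 * a + 3 : ℕ) : ℤ) := by push_cast; ring
      rwa [e] at this
    · rw [List.length_append, hwl, List.length_singleton]
      omega
  have hX : ∀ e, ∃ f : ℕ → ℕ, (∀ i, f i ≤ 2 * a * a) ∧
      ∑ i ∈ range (l e), (8 * a + 3 + 2 * f i) = l' e := by
    intro e
    have b1 := h1 e
    have b2 := h2 e
    have b3 := h3 e
    obtain ⟨X, hX⟩ : ∃ X, l' e = (8 * a + 3) * l e + 2 * X := by
      refine ⟨(l' e - (8 * a + 3) * l e) / 2, ?_⟩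
      have b4 : ((8 * a + 3) * l e) % 2 = l e % 2 := by
        rw [Nat.mul_mod, show (8 * a + 3) % 2 = 1 by omega, one_mul, Nat.mod_mod]
      omega
    obtain ⟨f, hf, hs⟩ := exists_distr (2 * a * a) X (l e) (by
      have : (8 * a + 3 + 4 * (a * a)) * l e = (8 * a + 3) * l e + 2 * (2 * a * a * l e) := by ring
      omega)
    exact ⟨f, hf, by rw [sum_two_mul_add, hs, hX]⟩
  choose f hf hs using hX
  have hw' : ∀ e i, ∃ w : W, Dm ((8 * a + 3 : ℕ) : ℤ) w ∧ w.length = 8 * a + 3 + 2 * f e i :=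
    fun e i => hw _ (hf e i)
  choose w hwD hwl using hw'
  have ht : ∀ e, _ := fun e => exists_tau (fun i => 8 * a + 3 + 2 * f e i) (fun i => by omega)
  choose τ hτ h0 hτd hτs using ht
  have hY : (1 : ℤ) ≤ ((8 * a + 3 : ℕ) : ℤ) := by exact_mod_cast (by omega : 1 ≤ 8 * a + 3)
  have hfl : ∀ e, ∀ i < l e, Fl ((8 * a + 3 : ℕ) : ℤ) (τ e (i + 1) - τ e i)
      ((fun e i s => V ((w e i).take s)) e i) := by
    intro e i hi
    rw [hτd, ← hwl e i]
    exact (hwD e i).fl hY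
  have hl' : ∀ e, l' e = τ e (l e) := fun e => by rw [hτs, hs]
  have := net_sub hl hω hx hY hτ h0 hfl (n := l') hl' (fun e => by
      have b1 := h1 e
      have b2 := Nat.mul_le_mul (by omega : 3 ≤ 8 * a + 3) (hl e)
      omega)
  exact ⟨_, this.1, this.2, fun e => sw_fo hY (hω e) (hτ e) (h0 e) (hfl e) (hl' e)⟩

end Pool.Agent.N941.NW
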