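import Pool.Agent.N941.NW.Chn
import Pool.Agent.N941.NW.Ref
import Pool.Agent.N223.WB.Tail

/-!
Diamond walks between the same points with many different lengths, at the scale of the mean
diameter. The lemma `mean_of_scale` follows the proof of helper223's `pictures`.
-/

set_option autoImplicit false

namespace Pool.Agent.N941.NW

open Finset Real
open Pool.Agent.N941.SP
open Pool.Agent.H122R3.SX (Adj V W X pos Saw c walks fs mem_fs walks_eq fw fw_inj)
open Pool.Agent.TH303.SX2 (Bd)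
open Pool.Agent.N223.WB (IsSAW diam prob mean card_pos' card_eq prob_mono diam_wide diam_le_n
  prob_zero prob_dfar dfar_tail saw_fin scale')
open Pool.Agent.N223.BP (diam2 bd_mu)

theorem dm_le_df {Y : ℤ} (hY : 1 ≤ Y) (N : ℕ) : dm Y N ≤ df Y N := by
  unfold dm df
  rw [← Set.ncard_coe_finset]
  refine Set.ncard_le_ncard_of_injOn (fw N) ?_ ?_ (DF_finite _ _)
  · intro w hw
    rw [mem_coe, mem_fs] at hw
    obtain ⟨hD, hl⟩ := hw
    have hfl := hD.fl hY
    rw [hl] at hfl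
    refine ⟨?_, ?_, ?_⟩
    · rw [walks_eq]
      exact ⟨w, by rw [mem_coe, mem_fs]; exact ⟨hD.saw, hl⟩, rfl⟩
    · unfold fw
      rw [Fin.val_last, List.take_of_length_le hl.le]
      unfold V
      rw [hD.hor, hD.top]
    · intro k hk0 hkl
      have h1 : (k : ℕ) ≠ 0 := fun h => hk0 (Fin.ext h)
      have h2 : (k : ℕ) ≠ N := fun h => hkl (Fin.ext h)
      have := k.2
      exact hfl.blk.dia k (by omega) (by omega)
  · intro w hw w' hw' h
    rw [mem_coe, mem_fs] at hw hw'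
    exact fw_inj hw.2 hw'.2 h

/-- a mean from a tail -/
theorem mean_le {n : ℕ} {R : ℝ} (hR : 0 ≤ R)
    (h : prob n (fun ω => R ≤ diam n ω) * n ≤ 1) : mean n ≤ R + 1 := by
  have hfin := saw_fin n
  have hcm := card_pos' n
  unfold mean
  rw [div_le_iff₀ hcm, finsum_mem_eq_finite_toFinset_sum _ hfin]
  have hcard : ({ω | IsSAW n ω}.ncard : ℝ) = hfin.toFinset.card := by
    rw [Set.ncard_eq_toFinset_card _ hfin]
  classical
  have key : ∀ ω ∈ hfin.toFinset, diam n ω ≤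
      R + (if R ≤ diam n ω then (n : ℝ) else 0) := by
    intro ω hω
    rw [Set.Finite.mem_toFinset] at hω
    split_ifs with hcase
    · have h3 := diam_le_n hω
      linarith
    · linarith
  refine (sum_le_sum key).trans ?_
  rw [sum_add_distrib, sum_const, nsmul_eq_mul, ← sum_filter, sum_const, nsmul_eq_mul, ← hcard]
  have e1 : (((hfin.toFinset.filter fun ω => R ≤ diam n ω).card : ℕ) : ℝ) =
      prob n (fun ω => R ≤ diam n ω) * {ω | IsSAW n ω}.ncard := by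
    unfold prob
    rw [div_mul_cancel₀ _ hcm.ne']
    congr 1
    rw [← Set.ncard_coe_finset]
    congr 1
    ext ω
    simp
  rw [e1]
  nlinarith

/-- the mean diameter at all the larger scales -/
theorem mean_of_scale : ∃ κ' : ℝ, 0 ≤ κ' ∧ ∀ m : ℕ, 424 ≤ m → ∀ Y : ℤ, 1 ≤ Y →
    (∀ D : ℕ, exp (-(κ' * log m ^ 2)) * c m ≤ wide m D → (D : ℤ) ≤ 128 * Y) →
    ∀ k n : ℕ, 1 ≤ k → n ≤ k * m → mean n ≤ 391 * k * Y := by
  obtain ⟨K1, hK1, htail⟩ := dfar_tail
  obtain ⟨K2, hK2, hfar⟩ := Y981.L2.le_far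
  obtain ⟨κ, hκd⟩ : ∃ κ : ℝ, κ = 2 := ⟨_, rfl⟩
  have hκ : 0 ≤ κ := by rw [hκd]; norm_num
  refine ⟨κ + 7 * (K1 + K2) + 2, by positivity, fun m hm Y hY1 hsc k n hk hnk => ?_⟩
  have hmr : (424 : ℝ) ≤ m := by exact_mod_cast hm
  have hl1 : 1 ≤ log (m : ℝ) := by
    rw [← log_exp 1]
    apply log_le_log (exp_pos _)
    have := exp_one_lt_d9
    linarith
  have hl2 : 1 ≤ log (m : ℝ) ^ 2 := one_le_pow₀ hl1
  obtain ⟨D, hD⟩ : ∃ D : ℕ, (D : ℤ) = 128 * Y + 1 :=
    ⟨(128 * Y + 1).toNat, Int.toNat_of_nonneg (by omega)⟩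
  have hYr : (1 : ℝ) ≤ Y := by exact_mod_cast hY1
  have hDr : (D : ℝ) = 128 * Y + 1 := by exact_mod_cast hD
  have hcm := card_pos' m
  have hpr : ∀ r : ℝ, 3 / 2 * D ≤ r → prob m (fun ω => r ≤ diam m ω) <
      exp (-((κ + 7 * (K1 + K2) + 2) * log m ^ 2)) := by
    intro r hr
    refine lt_of_le_of_lt (prob_mono (F := fun ω => (3 / 2 : ℝ) * D ≤ diam m ω)
      fun ω _ h => hr.trans h) ?_
    unfold prob
    rw [div_lt_iff₀ hcm]
    by_contra hc
    push Not at hc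
    have h3 := hsc D (by
      rw [← card_eq]
      refine hc.trans ?_
      exact_mod_cast diam_wide m D)
    omega
  have hkr : (1 : ℝ) ≤ k := by exact_mod_cast hk
  have hk0 : (0 : ℝ) < k := by linarith
  have hnk' : (n : ℝ) ≤ k * m := by exact_mod_cast hnk
  have tail : prob n (fun ω => (390 * k * Y : ℝ) ≤ diam n ω) ≤ exp (-(κ * k * log m ^ 2)) := by
    obtain ⟨r, hr1, hr2, hrpar⟩ : ∃ r : ℕ, (194 * Y : ℤ) ≤ r ∧ (r : ℤ) ≤ 195 * Y ∧
        ((r : ℤ) - m) % 2 = 0 := by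
      obtain ⟨r0, hr0⟩ : ∃ r0 : ℕ, (r0 : ℤ) = 194 * Y :=
        ⟨(194 * Y).toNat, Int.toNat_of_nonneg (by omega)⟩
      rcases Int.emod_two_eq_zero_or_one ((r0 : ℤ) - m) with h | h
      · exact ⟨r0, by omega, by omega, h⟩
      · exact ⟨r0 + 1, by push_cast; omega, by push_cast; omega, by push_cast; omega⟩
    have hr1r : (194 * Y : ℝ) ≤ r := by exact_mod_cast hr1
    have hr2r : (r : ℝ) ≤ 195 * Y := by exact_mod_cast hr2
    have hrpos : (0 : ℝ) < r := by linarith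
    by_cases hw : k * r ≤ n
    swap
    · -- impossible
      rw [prob_zero]
      · exact (exp_pos _).le
      · intro ω hω hc
        have h3 := diam_le_n hω
        have h4 : (n : ℝ) < k * r := by exact_mod_cast not_le.1 hw
        nlinarith
    have hrm : r ≤ m := by
      by_contra hc
      have : k * (m + 1) ≤ k * r := Nat.mul_le_mul_left _ (by omega)
      rw [mul_add, mul_one] at this
      omega
    have hn2 : 2 ≤ n := by
      have h3 : 1 * r ≤ k * r := Nat.mul_le_mul_right _ hk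
      omega
    have g1 := hfar m r (by omega) (by omega) hrm hrpar r le_rfl
    have g1' := lt_of_le_of_lt (g1.trans (Y981.L2.far_le_dfar m r)) (by
      rw [← prob_dfar]
      exact hpr r (by rw [hDr]; linarith))
    have g2 := exp_lt_exp.1 g1'
    have hn0 : (0 : ℝ) < n := by exact_mod_cast (by omega : 0 < n)
    have hm0 : (0 : ℝ) < m := by linarith
    have hwr : (k : ℝ) * r ≤ n := by exact_mod_cast hw
    have g3 := htail n hn2 ((k * r : ℝ) / n) (by positivity)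
    have e0 : 2 * ((n : ℝ) * (k * r / n)) = 2 * (k * r) := by field_simp
    rw [e0, ← prob_dfar] at g3
    have hsmul := Y981.L2.R_smul (v := (k * r : ℝ) / n) (t := n / (k * m))
      (by positivity) (by
        rw [div_le_one hn0]
        exact hwr) (by positivity) (by
        rw [div_le_one (by positivity)]
        exact hnk')
    have e1 : (n : ℝ) / (k * m) * ((k * r : ℝ) / n) = (r : ℝ) / m := by
      field_simp
    rw [e1, div_mul_eq_mul_div, le_div_iff₀ (by positivity)] at hsmul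
    have hlogn : log (n : ℝ) ^ 2 ≤ 6 * (k * log m ^ 2) := by
      have a1 : log (n : ℝ) ≤ log k + log m := by
        rw [← log_mul hk0.ne' hm0.ne']
        exact log_le_log hn0 hnk'
      have a2 := Pool.Agent.TH303.SX2.log2_le (y := (k : ℝ)) hkr
      have a3 : 0 ≤ log (n : ℝ) := log_natCast_nonneg n
      have a4 : log (n : ℝ) ^ 2 ≤ (log k + log m) ^ 2 := pow_le_pow_left₀ a3 a1 2
      have a5 : (log (k : ℝ) + log m) ^ 2 ≤ 2 * log k ^ 2 + 2 * log m ^ 2 := by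
        nlinarith [sq_nonneg (log (k : ℝ) - log m)]
      have a6 : (k : ℝ) ≤ k * log m ^ 2 := by nlinarith
      have a7 : log (m : ℝ) ^ 2 ≤ k * log m ^ 2 := by nlinarith
      linarith
    calc prob n (fun ω => (390 * k * Y : ℝ) ≤ diam n ω)
        ≤ prob n (fun ω => 2 * (k * r : ℝ) ≤ diam n ω) := by
          apply prob_mono
          intro ω _ hf
          have : (k : ℝ) * r ≤ k * (195 * Y) := mul_le_mul_of_nonneg_left hr2r hk0.le
          linarith
      _ ≤ _ := g3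
      _ ≤ _ := by
        apply exp_le_exp.2
        have b1 : k * (m * Y981.L2.R ((r : ℝ) / m)) ≤ n * Y981.L2.R ((k * r : ℝ) / n) := by
          nlinarith
        have b2 : k * ((κ + 7 * (K1 + K2) + 2) * log m ^ 2) ≤
            k * (m * Y981.L2.R ((r : ℝ) / m) + K2 * log m ^ 2) := by
          apply mul_le_mul_of_nonneg_left _ hk0.le
          linarith
        have b3 := mul_le_mul_of_nonneg_left hlogn hK1
        have b4 : 0 ≤ k * log (m : ℝ) ^ 2 := by positivity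
        nlinarith [mul_nonneg hK2 b4, mul_nonneg hK1 b4, mul_nonneg hκ b4]
  have hkY : (1 : ℝ) ≤ k * Y := by nlinarith
  refine (mean_le (R := 390 * k * Y) (by nlinarith) ?_).trans (by nlinarith)
  have hexp : exp (-(κ * k * log m ^ 2)) * (n : ℝ) ≤ 1 := by
    have c1 : (k : ℝ) ≤ exp (k * log m) := by
      have := add_one_le_exp ((k : ℝ) * log m)
      nlinarith
    have c2 : (m : ℝ) ≤ exp (k * log m) := by
      calc (m : ℝ) = exp (log m) := (exp_log (by linarith)).symm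
        _ ≤ _ := exp_le_exp.2 (by nlinarith)
    calc exp (-(κ * k * log m ^ 2)) * (n : ℝ) ≤
        exp (-(κ * k * log m ^ 2)) * (exp (k * log m) * exp (k * log m)) := by
          apply mul_le_mul_of_nonneg_left _ (exp_pos _).le
          refine hnk'.trans ?_
          gcongr
      _ = exp (-(κ * k * log m ^ 2) + (k * log m + k * log m)) := by
          rw [exp_add, exp_add]
      _ ≤ exp 0 := by
          apply exp_le_exp.2
          rw [hκd]
          have : (k : ℝ) * log m ≤ k * log m ^ 2 := by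
            apply mul_le_mul_of_nonneg_left _ hk0.le
            nlinarith
          linarith
      _ = 1 := exp_zero
  exact (mul_le_mul_of_nonneg_right tail (Nat.cast_nonneg n)).trans hexp

/-- the number of diamond words, at the scale of the mean diameter -/
theorem exists_Z : ∃ (C : ℝ), 0 ≤ C ∧ ∀ m : ℕ, 424 ≤ m → ∃ Y : ℤ, 1 ≤ Y ∧
    (∀ k n : ℕ, 1 ≤ k → n ≤ k * m → mean n ≤ 391 * k * Y) ∧
    H981.mu ^ m * exp (-(C * log m ^ 3)) ≤ dm Y m := by
  obtain ⟨K0, hB⟩ := bd_mu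
  obtain ⟨Kb0, hKb0, hb0⟩ := exists_Kb
  obtain ⟨κ, hκ, hmean⟩ := mean_of_scale
  have hμ1 := H981.one_le_mu
  have hμ0 := H981.mu_pos
  have hlμ : 0 ≤ log H981.mu := log_nonneg hμ1
  have hK2 := Pool.Agent.TH303.SX2.K2_nonneg hB.Kn
  have hKn := hB.Kn
  obtain ⟨Kb, hKbd⟩ : ∃ Kb, Kb = Kb0 + 8 * K0 + 4 * κ := ⟨_, rfl⟩
  have hKb : 0 ≤ Kb := by rw [hKbd]; positivity
  have hb : ∀ n : ℕ, 2 ≤ n → (c n : ℝ) * exp (-(Kb * log n ^ 2)) ≤ bw n := by
    intro n hn
    refine le_trans ?_ (hb0 n hn)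
    apply mul_le_mul_of_nonneg_left _ (Nat.cast_nonneg _)
    apply exp_le_exp.2
    have h1 : Kb0 * log n ^ 2 ≤ Kb * log n ^ 2 := by
      apply mul_le_mul_of_nonneg_right _ (sq_nonneg _)
      rw [hKbd]
      have : 0 ≤ 8 * K0 + 4 * κ := by positivity
      linarith
    linarith
  obtain ⟨C, hC⟩ : ∃ C, C = 12 * (4 * Pool.Agent.TH303.SX2.K2 K0 + 2 * K0 + Kb + 22) +
      45 * (Kb + 6) + 10 * log H981.mu := ⟨_, rfl⟩
  have hC0 : 0 ≤ C := by rw [hC]; positivity
  refine ⟨C, hC0, fun m hm => ?_⟩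
  obtain ⟨Y1, hY1, hJ, hd⟩ := diam2 hB hKb hb (n := m) (by omega)
  rw [← hC] at hd
  refine ⟨Y1, hY1, hmean m hm Y1 hY1 ?_, hd⟩
  intro D hD
  refine scale' hB (κ := κ) hκ (by rw [hKbd]; linarith) (m := m + 8) rfl (by omega) (t := m)
    (by omega) ?_ hY1 hJ
  refine le_trans ?_ hD
  have h2 := hB.low m (by omega)
  have h3 : exp (-(κ * log ((m + 8 : ℕ) : ℝ) ^ 2)) ≤ exp (-(κ * log m ^ 2)) := by
    apply exp_le_exp.2
    have h4 : log (m : ℝ) ≤ log ((m + 8 : ℕ) : ℝ) := by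
      apply log_le_log
      · exact_mod_cast (by omega : 0 < m)
      · exact_mod_cast (by omega : m ≤ m + 8)
    have h5 : log (m : ℝ) ^ 2 ≤ log ((m + 8 : ℕ) : ℝ) ^ 2 :=
      pow_le_pow_left₀ (log_natCast_nonneg m) h4 2
    have := mul_le_mul_of_nonneg_left h5 hκ
    linarith
  gcongr

theorem exists_flex : ∃ C₂ : ℝ, 0 ≤ C₂ ∧ ∀ m : ℕ, 424 ≤ m → ∃ (T : ℤ) (N₀ : ℕ), 1 ≤ T ∧
      N₀ % 2 = 1 ∧ 5 * m ≤ N₀ ∧ N₀ ≤ 8 * m + 6 ∧
      (∀ k n : ℕ, 1 ≤ k → n ≤ k * m → mean n ≤ 391 * k * T) ∧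
      ∀ E ≤ m, H981.mu ^ (N₀ + 2 * E) * exp (-(C₂ * log m ^ 3)) ≤ df T (N₀ + 2 * E) := by
  obtain ⟨C, hC0, hZ⟩ := exists_Z
  have hμ1 := H981.one_le_mu
  have hμ0 := H981.mu_pos
  have hlμ : 0 ≤ log H981.mu := log_nonneg hμ1
  obtain ⟨μ, hμd⟩ : ∃ μ, μ = H981.mu := ⟨_, rfl⟩
  rw [← hμd] at hZ hμ1 hμ0 hlμ
  rw [← hμd]
  refine ⟨40 * C + 6 * log μ, by positivity, fun m hm => ?_⟩
  have hj : ∀ j : ℕ, ∃ Y : ℤ, 424 ≤ j → 1 ≤ Y ∧
      (∀ k n : ℕ, 1 ≤ k → n ≤ k * j → mean n ≤ 391 * k * Y) ∧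
      μ ^ j * exp (-(C * log j ^ 3)) ≤ dm Y j := by
    intro j
    by_cases h : 424 ≤ j
    · obtain ⟨Y, hY, h2, h3⟩ := hZ j h
      exact ⟨Y, fun _ => ⟨hY, h2, h3⟩⟩
    · exact ⟨0, fun h' => absurd h' h⟩
  choose Zf hZf using hj
  obtain ⟨j, hjm, hmax⟩ := exists_max_image (Icc m (2 * m)) Zf ⟨m, by rw [mem_Icc]; omega⟩
  rw [mem_Icc] at hjm
  have hZj := (hZf j (by omega)).1
  obtain ⟨S, p, hS, hp2, hp1, hp3, hdm⟩ : ∃ (S : ℤ) (p : ℕ), Zf j < S ∧ p % 2 = 1 ∧ j < p ∧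
      p ≤ j + 2 ∧ dm (Zf j) j ≤ dm S p := by
    rcases Nat.mod_two_eq_zero_or_one j with h | h
    · exact ⟨Zf j + 1, j + 1, by omega, by omega, by omega, by omega, dm_succ hZj j⟩
    · exact ⟨Zf j + 1 + 1, j + 1 + 1, by omega, by omega, by omega, by omega,
        (dm_succ hZj j).trans (dm_succ (by omega) (j + 1))⟩
  refine ⟨3 * S, 3 * p + 2 * m, by omega, by omega, by omega, by omega, ?_, fun E hE => ?_⟩
  · intro k n hk hnk
    refine ((hZf m hm).2.1 k n hk hnk).trans ?_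
    have h1 := hmax m (by rw [mem_Icc]; omega)
    have h2 : Zf m ≤ 3 * S := by omega
    have h3 : (Zf m : ℝ) ≤ ((3 * S : ℤ) : ℝ) := by exact_mod_cast h2
    gcongr
  have hmr : (424 : ℝ) ≤ m := by exact_mod_cast hm
  have hl1 : 1 ≤ log (m : ℝ) := by
    rw [← log_exp 1]
    apply log_le_log (exp_pos _)
    have := exp_one_lt_d9
    linarith
  have hlog : ∀ i : ℕ, m ≤ i → i ≤ 2 * m → log (i : ℝ) ^ 3 ≤ 8 * log m ^ 3 := by
    intro i h1 h2
    have hi0 : (0 : ℝ) < i := by exact_mod_cast (by omega : 0 < i)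
    have h3 : log (i : ℝ) ≤ 2 * log m := by
      have h4 : log (i : ℝ) ≤ log ((m : ℝ) ^ 2) := by
        apply log_le_log hi0
        have : (i : ℝ) ≤ 2 * m := by exact_mod_cast h2
        nlinarith
      rw [log_pow] at h4
      exact_mod_cast h4
    calc log (i : ℝ) ^ 3 ≤ (2 * log m) ^ 3 := pow_le_pow_left₀ (log_natCast_nonneg i) h3 3
      _ = _ := by ring
  have e1 : 3 * p + 2 * m + 2 * E = 3 * p + 2 * (m + E) := by ring
  rw [e1]
  have hq := hmax (m + E) (by rw [mem_Icc]; omega)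
  have hZq := hZf (m + E) (by omega)
  have h1 := df_detour hZq.1 (by omega : Zf (m + E) < S) (by omega : 1 ≤ p)
    (by omega : 1 ≤ m + E)
  have h2 : μ ^ j * exp (-(8 * C * log m ^ 3)) ≤ (df S p : ℝ) := by
    have a1 := (hZf j (by omega)).2.2
    have a2 : (dm (Zf j) j : ℝ) ≤ df S p := by
      exact_mod_cast hdm.trans (dm_le_df (by omega) p)
    refine le_trans ?_ (a1.trans a2)
    have a3 := mul_le_mul_of_nonneg_left (hlog j hjm.1 hjm.2) hC0
    exact mul_le_mul_of_nonneg_left (exp_le_exp.2 (by linarith)) (by positivity)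
  have h3 : μ ^ (m + E) * exp (-(8 * C * log m ^ 3)) ≤ (df (Zf (m + E)) (m + E) : ℝ) := by
    have a1 := hZq.2.2
    have a2 : (dm (Zf (m + E)) (m + E) : ℝ) ≤ df (Zf (m + E)) (m + E) := by
      exact_mod_cast dm_le_df hZq.1 (m + E)
    refine le_trans ?_ (a1.trans a2)
    have a3 := mul_le_mul_of_nonneg_left (hlog (m + E) (by omega) (by omega)) hC0
    exact mul_le_mul_of_nonneg_left (exp_le_exp.2 (by linarith)) (by positivity)
  have h4 : (df S p : ℝ) ^ 3 * (df (Zf (m + E)) (m + E) : ℝ) ^ 2 ≤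
      (df (3 * S) (3 * p + 2 * (m + E)) : ℝ) := by exact_mod_cast h1
  refine le_trans ?_ h4
  have h5 : μ ^ (3 * p + 2 * (m + E)) ≤ μ ^ (3 * j + 2 * (m + E)) * exp (6 * log μ) := by
    have e2 : exp (6 * log μ) = μ ^ 6 := by
      have := exp_nat_mul (log μ) 6
      rw [exp_log hμ0] at this
      rw [← this]
      norm_num
    rw [e2, ← pow_add]
    exact pow_le_pow_right₀ hμ1 (by omega)
  have h6 : (1 : ℝ) ≤ log m ^ 3 := one_le_pow₀ hl1
  calc μ ^ (3 * p + 2 * (m + E)) * exp (-((40 * C + 6 * log μ) * log m ^ 3))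
      ≤ (μ ^ (3 * j + 2 * (m + E)) * exp (6 * log μ)) *
        exp (-((40 * C + 6 * log μ) * log m ^ 3)) := by gcongr
    _ = μ ^ (3 * j + 2 * (m + E)) * exp (6 * log μ + -((40 * C + 6 * log μ) * log m ^ 3)) := by
      rw [exp_add]; ring
    _ ≤ μ ^ (3 * j + 2 * (m + E)) * exp (-(40 * C * log m ^ 3)) := by
      gcongr
      nlinarith
    _ = (μ ^ j * exp (-(8 * C * log m ^ 3))) ^ 3 *
        (μ ^ (m + E) * exp (-(8 * C * log m ^ 3))) ^ 2 := by
      rw [mul_pow, mul_pow, ← exp_nat_mul, ← exp_nat_mul, pow_add μ (3 * j), pow_mul' μ 3 j,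
        pow_mul' μ 2 (m + E)]
      have e3 : exp (-(40 * C * log m ^ 3)) = exp (((3 : ℕ) : ℝ) * -(8 * C * log m ^ 3)) *
          exp (((2 : ℕ) : ℝ) * -(8 * C * log m ^ 3)) := by
        rw [← exp_add]
        congr 1
        push_cast
        ring
      rw [e3]
      ring
    _ ≤ _ := by gcongr

end Pool.Agent.N941.NW
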